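import Pool.Agent.Y121.AHS.Defs

/-!
# The level of the Hodge group and comparison isomorphisms: definitions

The notions of linear algebra are first defined for an algebra `A` over a field `K` of rational
numbers with a notion of elements of type `(p, q)` in `ℂ ⊗ A`; the case of interest is the
cohomology of a variety.
-/

open CategoryTheory AlgebraicGeometry

universe u

namespace Pool.Agent.Q219.LV.Lv

open Pool.Agent.H914 Pool.Agent.H914.VarClass Pool.Agent.H914.VarClass.Obj
  Pool.Agent.H914.WeilCohomology
open Pool.Agent.Y121.AHS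

section Ring

variable {R : Type} [Ring R]

/-- The commutators of elements of `S` and elements of `J` belong to `J`. -/
def Absorbs (S J : Set R) : Prop := ∀ f ∈ S, ∀ g ∈ J, f * g - g * f ∈ J

end Ring

section Generic

variable {K A B : Type} [Field K] [Ring A] [Algebra K A] [Ring B] [Algebra K B]

/-- The homomorphism `f` is injective. -/
def IsInj (f : A →ₐ[K] B) : Prop := Function.Injective f

/-- The algebra `A` is generated by the set `S`. -/
def IsGenBy (K : Type) {A : Type} [Field K] [Ring A] [Algebra K A] (S : Set A) : Prop :=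
  Algebra.adjoin K S = ⊤

variable (K A) in
/-- The dimension of `A`. -/
noncomputable def dimAll : ℕ := Module.finrank K A

variable [Algebra K ℂ]

variable (K A) in
/-- For integers `p` and `q`, a property of the elements of `A` with complex coefficients. -/
abbrev TypesOn := ℤ → ℤ → Ext K ℂ A → Prop

/-- The types are in the range from `0` to `d`. -/
def InRange (t : TypesOn K A) (d : ℕ) : Prop :=
  ∀ (p q : ℤ) (x : Ext K ℂ A), t p q x → x ≠ 0 → 0 ≤ p ∧ p ≤ d ∧ 0 ≤ q ∧ q ≤ d

/-- The element `y` is the complex conjugate of `x`. -/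
def IsConj (x y : Ext K ℂ A) : Prop :=
  ∃ (m : ℕ) (l : Fin m → ℂ) (c : Fin m → A), x = ∑ i, extSm K ℂ (l i) (extEm K ℂ (c i)) ∧
    y = ∑ i, extSm K ℂ (starRingEnd ℂ (l i)) (extEm K ℂ (c i))

/-- The bilinear form `(x, y) ↦ tr (φ x · y)`. -/
noncomputable def form (tr : A →ₗ[K] K) (φ : A →ₗ[K] A) (x y : Ext K ℂ A) : ℂ :=
  extForm K ℂ tr (extMul K ℂ (extMap K ℂ φ x) y)

/-- The bilinear form `(x, y) ↦ tr (φ x · y)` is a polarisation: it is zero on elements of types
`(p, q)` and `(r, s)` unless `(r, s) = (q, p)`, and for all nonzero `x` of type `(p, q)` with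
complex conjugate `y` its value at `(x, y)`, multiplied by `i ^ (p - q)`, is a positive real
number. -/
def IsPolarisation (t : TypesOn K A) (tr : A →ₗ[K] K) (φ : A →ₗ[K] A) : Prop :=
  (∀ (p q r s : ℤ) (x y : Ext K ℂ A), t p q x → t r s y → (r, s) ≠ (q, p) →
    form tr φ x y = 0) ∧
  ∀ (p q : ℤ) (x y : Ext K ℂ A), t p q x → IsConj x y → x ≠ 0 →
    ∃ a : ℝ, 0 < a ∧ Complex.I ^ (p - q) * form tr φ x y = (a : ℂ)

/-- The types are in the range from `0` to `d`, complex conjugation exchanges the types `(p, q)` and
`(q, p)`, and there is a polarisation. -/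
def IsPolHS (t : TypesOn K A) (tr : A →ₗ[K] K) (d : ℕ) : Prop :=
  InRange t d ∧ (∀ (p q : ℤ) (x y : Ext K ℂ A), IsConj x y → t p q x → t q p y) ∧
    ∃ φ, IsPolarisation t tr φ

/-- The operator which is `p - q` on the elements of type `(p, q)` is a linear combination, with
complex coefficients, of elements of `L`. -/
def HasOperator (t : TypesOn K A) (L : Submodule K (Module.End K A)) : Prop :=
  ∃ (m : ℕ) (z : Fin m → ℂ) (g : Fin m → Module.End K A), (∀ i, g i ∈ L) ∧
    ∀ (p q : ℤ) (x : Ext K ℂ A), t p q x →
      ∑ i, extSm K ℂ (z i) (extMap K ℂ (g i) x) = extSm K ℂ ((p - q : ℤ) : ℂ) x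

/-- The operator `f` belongs to the smallest space of endomorphisms which is closed under
commutators and contains, after extension of the coefficients to the complex numbers, the operator
which is `p - q` on the elements of type `(p, q)`. -/
def InLie (t : TypesOn K A) (f : Module.End K A) : Prop :=
  ∀ L : Submodule K (Module.End K A), Absorbs (L : Set (Module.End K A)) L → HasOperator t L →
    f ∈ L

/-- The operator `f` moves the types by at most `l`: it maps every element of type `(p, q)` to a sum
of elements of the types `(p + r, q - r)` with `|r| ≤ l`. -/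
def MovesBy (t : TypesOn K A) (l : ℕ) (f : Module.End K A) : Prop :=
  ∀ (p q : ℤ) (x : Ext K ℂ A), t p q x → ∃ y : ℤ → Ext K ℂ A,
    (∀ r, t (p + r) (q - r) (y r)) ∧ extMap K ℂ f x = ∑ r ∈ Finset.Icc (-(l : ℤ)) l, y r

/-- All operators in the Lie algebra move the types by at most `l`. -/
def AllMoveBy (t : TypesOn K A) (l : ℕ) : Prop := ∀ f, InLie t f → MovesBy t l f

/-- Every ideal `J` of the Lie algebra all of whose elements move the types by at most `l` is
zero. -/
def NoIdealMovesBy (t : TypesOn K A) (l : ℕ) : Prop :=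
  ∀ J : Submodule K (Module.End K A), (∀ f ∈ J, InLie t f ∧ MovesBy t l f) →
    Absorbs {f | InLie t f} (J : Set (Module.End K A)) → ∀ f ∈ J, f = 0

/-- The types `(p, q)` with `p + q = i` which occur satisfy `|p - q| ≤ l`. -/
def HasWidth (t : TypesOn K A) (l i : ℕ) : Prop :=
  ∀ (p q : ℤ) (x : Ext K ℂ A), p + q = i → t p q x → x ≠ 0 → |p - q| ≤ l

/-- The algebra `A` is generated by the spaces `gr i`, for the `i` such that the types `(p, q)` with
`p + q = i` satisfy `|p - q| ≤ l`. -/
def GenBySmallWidth (t : TypesOn K A) (gr : ℕ → Submodule K A) (l : ℕ) : Prop :=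
  IsGenBy K {v | ∃ i, HasWidth t l i ∧ v ∈ gr i}

/-- The space of the elements of type `(2, 0)` has dimension at most one. -/
def OneTwoForm (t : TypesOn K A) : Prop :=
  ∀ x y : Ext K ℂ A, t 2 0 x → t 2 0 y → x ≠ 0 → ∃ z : ℂ, y = extSm K ℂ z x

end Generic

variable {k : Type u} [Field k] {𝒱 : VarClass k} {ops : CycleOps 𝒱}

/-- The classes of type `(p, q)` in the cohomology of `X` with complex coefficients. -/
def types (T : HodgeTheory ops) (X : 𝒱.Obj) : TypesOn T.W.K (T.W.H X) := fun p q x =>
  IsType (X := X) T.pq p q x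

/-- The cohomology of `X` is a polarisable Hodge structure, with types in the usual range. -/
def IsPolarisable (T : HodgeTheory ops) (X : 𝒱.Obj) : Prop :=
  IsPolHS (types T X) (T.W.tr X) X.dim

/-- The variety `X` has level at most `l`: all operators in the Lie algebra of its Hodge group move
the Hodge types by at most `l`. -/
def LevelAtMost (T : HodgeTheory ops) (l : ℕ) (X : 𝒱.Obj) : Prop :=
  Nontrivial (T.W.H X) ∧ AllMoveBy (types T X) l

/-- The Lie algebra of the Hodge group of `X` has no ideal of level at most `l`, except zero. -/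
def LevelFree (T : HodgeTheory ops) (l : ℕ) (X : 𝒱.Obj) : Prop :=
  Nontrivial (T.W.H X) ∧ NoIdealMovesBy (types T X) l

/-- The varieties `X` and `Y` are separated: there is an `l` such that one of them has level at most
`l` and the Lie algebra of the Hodge group of the other one has no nonzero ideal of level at most
`l`. -/
def Separated (T : HodgeTheory ops) (X Y : 𝒱.Obj) : Prop :=
  ∃ l, LevelAtMost T l X ∧ LevelFree T l Y ∨ LevelAtMost T l Y ∧ LevelFree T l X

/-- The cohomology ring of `X` is generated by the cohomology in the degrees in which the Hodge types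
`(p, q)` satisfy `|p - q| ≤ l`. -/
def GeneratedByWidth (T : HodgeTheory ops) (l : ℕ) (X : 𝒱.Obj) : Prop :=
  Nontrivial (T.W.H X) ∧ GenBySmallWidth (types T X) (T.W.gr X) l

/-- The variety `X` is a surface such that the space of classes of type `(2, 0)` has dimension at
most one. -/
def IsSmallSurface (T : HodgeTheory ops) (X : 𝒱.Obj) : Prop :=
  Nontrivial (T.W.H X) ∧ X.dim = 2 ∧ OneTwoForm (types T X)

/-- The variety `Y` is dominated by `X`: there is a morphism from `X` to `Y` for which the pull-back
of cohomology classes is injective. -/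
def Dominates (T : HodgeTheory ops) (X Y : 𝒱.Obj) : Prop := ∃ f : X ⟶ Y, IsInj (T.W.map f)

/-- The product of `X` and the members of the list `l`. -/
noncomputable def times (X : 𝒱.Obj) (l : List 𝒱.Obj) : 𝒱.Obj := l.foldl Obj.prod X

/-- The product of `n` copies of `X`, for `n ≥ 1`. -/
noncomputable def power (X : 𝒱.Obj) (n : ℕ) : 𝒱.Obj := times X (List.replicate (n - 1) X)

/-- The powers `X ^ n` for the members `(X, n)` of `l`. -/
noncomputable def powers (l : List (𝒱.Obj × ℕ)) : List 𝒱.Obj := l.map fun p => power p.1 p.2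

/-- The number `N` is large with respect to the total Betti number `b` of `Q`: we have
`N ≥ exp (64 b ^ (2/3) log (2 b))`. -/
def IsLarge (T : HodgeTheory ops) (Q : 𝒱.Obj) (N : ℕ) : Prop :=
  Real.exp (64 * (dimAll T.W.K (T.W.H Q) : ℝ) ^ (2 / 3 : ℝ) *
    Real.log (2 * dimAll T.W.K (T.W.H Q))) ≤ N

/-- All Hodge classes on `X` are mapped by the comparison isomorphism `C` (corrected by the effect
on the Tate twist) to Hodge classes of the second theory. -/
def Preserved {T T' : HodgeTheory ops} {L : Type} [Field L] [Algebra T.W.K L] [Algebra T'.W.K L]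
    (C : Comparison T.W T'.W L) (X : 𝒱.Obj) : Prop :=
  ∀ j c, IsHodge T X j c → ∃ c', IsHodge T' X j c' ∧ C.Maps j c (emL _ _ c')

end Pool.Agent.Q219.LV.Lv
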