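import Pool.Agent.Q219.HG.Defs
import Pool.Agent.Q60.CJ.PDefs

/-!
# The level of the Hodge group: definitions
-/

open CategoryTheory AlgebraicGeometry

universe u

namespace Pool.Agent.Q219.LV.St

open Pool.Agent.H914 Pool.Agent.H914.VarClass Pool.Agent.H914.VarClass.Obj
  Pool.Agent.H914.WeilCohomology
open Pool.Agent.Y121.AHS
open Pool.Agent.Q219.HG.St (TypesOn lieOf types PolHodgeTheory Independent Decoupled totalBetti)
open Pool.Agent.Q60.CJ (Preserved)

section Generic

variable {K A B : Type} [Field K] [Ring A] [Algebra K A] [Ring B] [Algebra K B]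

/-- The homomorphism `f` is injective. -/
def IsInj (f : A →ₐ[K] B) : Prop := Function.Injective f

/-- The algebra `A` is generated by the set `S`. -/
def IsGenBy (K : Type) {A : Type} [Field K] [Ring A] [Algebra K A] (S : Set A) : Prop :=
  Algebra.adjoin K S = ⊤

variable [Algebra K ℂ]

/-- The operator `f` moves the types by at most `l`: it maps every element of type `(p, q)` to a sum
of elements of the types `(p + r, q - r)` with `|r| ≤ l`. -/
def MovesBy (t : TypesOn K A) (l : ℕ) (f : Module.End K A) : Prop :=
  ∀ (p q : ℤ) (x : Ext K ℂ A), t p q x → ∃ y : ℤ → Ext K ℂ A,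
    (∀ r, t (p + r) (q - r) (y r)) ∧ extMap K ℂ f x = ∑ r ∈ Finset.Icc (-(l : ℤ)) l, y r

/-- The space `J` is an ideal of the Lie algebra `lieOf t`. -/
def IsIdealOf (t : TypesOn K A) (J : Submodule K (Module.End K A)) : Prop :=
  J ≤ lieOf t ∧ ∀ f ∈ lieOf t, ∀ g ∈ J, f * g - g * f ∈ J

/-- All operators in the Lie algebra `lieOf t` move the types by at most `l`. -/
def AllMoveBy (t : TypesOn K A) (l : ℕ) : Prop := ∀ f ∈ lieOf t, MovesBy t l f

/-- Every ideal of the Lie algebra `lieOf t` all of whose elements move the types by at most `l` is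
zero. -/
def NoIdealOfLevel (t : TypesOn K A) (l : ℕ) : Prop :=
  ∀ J, IsIdealOf t J → (∀ f ∈ J, MovesBy t l f) → ∀ f ∈ J, f = 0

/-- The operator `x` is in the centre of the Lie algebra `lieOf t`. -/
def InCentre (t : TypesOn K A) (x : Module.End K A) : Prop :=
  x ∈ lieOf t ∧ ∀ y ∈ lieOf t, x * y = y * x

/-- The centre of the Lie algebra `lieOf t` has dimension at most one. -/
def SmallCentre (t : TypesOn K A) : Prop :=
  ∀ x y, InCentre t x → InCentre t y → x ≠ 0 → ∃ a : K, y = a • x

/-- The centre of the Lie algebra `lieOf t` is zero. -/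
def ZeroCentre (t : TypesOn K A) : Prop := ∀ x, InCentre t x → x = 0

/-- The types `(p, q)` with `p + q = i` which occur satisfy `|p - q| ≤ l`. -/
def HasWidth (t : TypesOn K A) (l i : ℕ) : Prop :=
  ∀ (p q : ℤ) (x : Ext K ℂ A), p + q = i → t p q x → x ≠ 0 → |p - q| ≤ l

/-- The algebra `A` is generated by the spaces `gr i`, for the `i` such that the types `(p, q)` with
`p + q = i` satisfy `|p - q| ≤ l`. -/
def GenBySmallWidth (t : TypesOn K A) (gr : ℕ → Submodule K A) (l : ℕ) : Prop :=
  IsGenBy K {v | ∃ i, HasWidth t l i ∧ v ∈ gr i}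

/-- The space of the elements of type `(2, 0)` has dimension at most one. -/
def OneTwoForm (t : TypesOn K A) : Prop :=
  ∀ x y : Ext K ℂ A, t 2 0 x → t 2 0 y → x ≠ 0 → ∃ z : ℂ, y = extSm K ℂ z x

end Generic

variable {k : Type u} [Field k] {𝒱 : VarClass k} {ops : CycleOps 𝒱}

/-- The variety `X` has level at most `l`: all operators in the Lie algebra of its Hodge group move
the Hodge types by at most `l`. -/
def LevelAtMost (T : PolHodgeTheory ops) (l : ℕ) (X : 𝒱.Obj) : Prop :=
  Nontrivial (T.W.H X) ∧ AllMoveBy (types T.toHodgeTheory X) l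

/-- The Lie algebra of the Hodge group of `X` has no ideal of level at most `l`, except zero. -/
def LevelFree (T : PolHodgeTheory ops) (l : ℕ) (X : 𝒱.Obj) : Prop :=
  Nontrivial (T.W.H X) ∧ NoIdealOfLevel (types T.toHodgeTheory X) l

/-- The variety `X` is elementary: its cohomology is not zero, and the centre of the Lie algebra of
its Hodge group has dimension at most one. -/
def IsElementary (T : PolHodgeTheory ops) (X : 𝒱.Obj) : Prop :=
  Nontrivial (T.W.H X) ∧ SmallCentre (types T.toHodgeTheory X)

/-- The centre of the Lie algebra of the Hodge group of `X` is zero. -/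
def CentreIsZero (T : PolHodgeTheory ops) (X : 𝒱.Obj) : Prop :=
  ZeroCentre (types T.toHodgeTheory X)

/-- The cohomology ring of `X` is generated by the cohomology in the degrees in which the Hodge types
`(p, q)` satisfy `|p - q| ≤ l`. -/
def GeneratedByWidth (T : PolHodgeTheory ops) (l : ℕ) (X : 𝒱.Obj) : Prop :=
  Nontrivial (T.W.H X) ∧ GenBySmallWidth (types T.toHodgeTheory X) (T.W.gr X) l

/-- The variety `X` is a surface such that the space of classes of type `(2, 0)` has dimension at
most one. -/
def IsSmallSurface (T : PolHodgeTheory ops) (X : 𝒱.Obj) : Prop :=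
  Nontrivial (T.W.H X) ∧ X.dim = 2 ∧ OneTwoForm (types T.toHodgeTheory X)

/-- The variety `Y` is dominated by `X`: there is a morphism from `X` to `Y` for which the pull-back
of cohomology classes is injective. -/
def Dominates (T : PolHodgeTheory ops) (X Y : 𝒱.Obj) : Prop :=
  ∃ f : X ⟶ Y, IsInj (T.W.map f)

/-- All Hodge classes on `X` are absolutely Hodge. -/
def AllAbsolutelyHodge {T : HodgeTheory ops} (D : Conjugates T) (X : 𝒱.Obj) : Prop :=
  ∀ j c, IsHodge T X j c → IsAbsHodge D X j c

/-- The varieties `X` and `Y` are separated: they are independent, or there is an `l` such that one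
of them has level at most `l` and the Lie algebra of the Hodge group of the other one has no nonzero
ideal of level at most `l`. -/
def Separated (T : PolHodgeTheory ops) (X Y : 𝒱.Obj) : Prop :=
  Independent T X Y ∨ ∃ l, LevelAtMost T l X ∧ LevelFree T l Y ∨
    LevelAtMost T l Y ∧ LevelFree T l X

/-- The product `P × Q` splits: `P` and `Q` are independent, all Hodge classes on `P × Q` are linear
combinations of external products of Hodge classes, and for all families of conjugate theories all
Hodge classes on `P × Q` are absolutely Hodge if and only if this holds for `P` and for `Q`; the same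
for the property that one single comparison isomorphism maps all Hodge classes to Hodge classes. -/
def SplitsAbsolutely (T : PolHodgeTheory ops) (P Q : 𝒱.Obj) : Prop :=
  Independent T P Q ∧ Decoupled T P Q ∧
    ∀ D : Conjugates T.toHodgeTheory,
      (AllAbsolutelyHodge D (P.prod Q) ↔ AllAbsolutelyHodge D P ∧ AllAbsolutelyHodge D Q) ∧
      ∀ a, Preserved D a (P.prod Q) ↔ Preserved D a P ∧ Preserved D a Q

/-- The number `N` is large with respect to the total Betti number `b` of `Q`: we have
`N ≥ exp (64 b ^ (2/3) log (2 b))`. -/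
def IsLarge (T : PolHodgeTheory ops) (Q : 𝒱.Obj) (N : ℕ) : Prop :=
  Real.exp (64 * (totalBetti T Q : ℝ) ^ (2 / 3 : ℝ) * Real.log (2 * totalBetti T Q)) ≤ N

end Pool.Agent.Q219.LV.St
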