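import Pool.Agent.Q219.LV.Lev

/-!
# The level of the Lie algebras of the Hodge groups of products
-/

set_option linter.unusedSectionVars false

open CategoryTheory AlgebraicGeometry TensorProduct

universe u

namespace Pool.Agent.Q219.LV

open Module Polynomial
open Pool.Agent.H914 Pool.Agent.H914.VarClass Pool.Agent.H914.VarClass.Obj
  Pool.Agent.H914.WeilCohomology
open Pool.Agent.Y133.Half
open Pool.Agent.Y121
open Pool.Agent.Q50.BL
open Pool.Agent.Q219.HD

variable {k : Type u} [Field k] {𝒱 : VarClass k} {ops : CycleOps 𝒱}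
  {T : AH.HodgeTheory ops} {X Y Z P Q : 𝒱.Obj} {c : ℂ ≃ₐ[T.W.K] ℂ}

/-! ### Operators on the factors of a product -/

/-- The operator `U` on the product is the operator `u` on the first factor. -/
def Act1 (U : Module.End ℂ (CH T (X.prod Y))) (u : Module.End ℂ (CH T X)) : Prop :=
  ∀ (a : CH T X) (b : CH T Y), U (mp T (fst X Y) a * mp T (snd X Y) b) =
    mp T (fst X Y) (u a) * mp T (snd X Y) b

/-- The operator `U` on the product is the operator `u` on the second factor. -/
def Act2 (U : Module.End ℂ (CH T (X.prod Y))) (u : Module.End ℂ (CH T Y)) : Prop :=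
  ∀ (a : CH T X) (b : CH T Y), U (mp T (fst X Y) a * mp T (snd X Y) b) =
    mp T (fst X Y) a * mp T (snd X Y) (u b)

/-- The classes of the product are sums of products. -/
theorem prod_ind {p : CH T (X.prod Y) → Prop}
    (h : ∀ (a : CH T X) (b : CH T Y), p (mp T (fst X Y) a * mp T (snd X Y) b))
    (hadd : ∀ a b, p a → p b → p (a + b)) (x : CH T (X.prod Y)) : p x := by
  induction x using TensorProduct.induction_on with
  | zero =>
    have h1 := h 0 0
    rwa [map_zero, zero_mul] at h1
  | add x y hx hy => exact hadd x y hx hy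
  | tmul z v =>
    refine T.W.kunneth_induction (p := fun v => p (z ⊗ₜ[T.W.K] v)) ?_ ?_ v
    · intro a b ha hb
      rw [tmul_add]
      exact hadd _ _ ha hb
    · intro i j a _ b _
      have h1 := h (z ⊗ₜ[T.W.K] a) (1 ⊗ₜ[T.W.K] b)
      rw [mp_tmul, mp_tmul, Algebra.TensorProduct.tmul_mul_tmul, mul_one] at h1
      exact h1

theorem Act1.ad {U : Module.End ℂ (CH T (X.prod Y))} {u : Module.End ℂ (CH T X)}
    (H : Act1 U u) : Act1 (ad (hop T (X.prod Y)) U) (ad (hop T X) u) := by
  intro a b
  rw [ad_apply, ad_apply, LinearMap.sub_apply, LinearMap.sub_apply, Module.End.mul_apply,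
    Module.End.mul_apply, Module.End.mul_apply, Module.End.mul_apply, H, hop_mul, hop_mul,
    hop_mp, hop_mp, hop_mp, map_add, H, H, map_sub, sub_mul]
  abel

theorem Act2.ad {U : Module.End ℂ (CH T (X.prod Y))} {u : Module.End ℂ (CH T Y)}
    (H : Act2 U u) : Act2 (ad (hop T (X.prod Y)) U) (ad (hop T Y) u) := by
  intro a b
  rw [ad_apply, ad_apply, LinearMap.sub_apply, LinearMap.sub_apply, Module.End.mul_apply,
    Module.End.mul_apply, Module.End.mul_apply, Module.End.mul_apply, H, hop_mul, hop_mul,
    hop_mp, hop_mp, hop_mp, map_add, H, H, map_sub, mul_sub]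
  abel

theorem Act1.aeval (p : ℂ[X]) {U : Module.End ℂ (CH T (X.prod Y))} {u : Module.End ℂ (CH T X)}
    (H : Act1 U u) : Act1 (aeval (LV.ad (hop T (X.prod Y))) p U)
      (aeval (LV.ad (hop T X)) p u) := by
  induction p using Polynomial.induction_on generalizing U u with
  | C a =>
    intro x y
    rw [aeval_C, aeval_C, Module.algebraMap_end_apply, Module.algebraMap_end_apply,
      LinearMap.smul_apply, LinearMap.smul_apply, H, map_smul, smul_mul_assoc]
  | add p q hp hq =>
    intro x y
    rw [map_add, map_add, LinearMap.add_apply, LinearMap.add_apply, LinearMap.add_apply,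
      LinearMap.add_apply, hp H, hq H, map_add, add_mul]
  | monomial n a ih =>
    have h1 : Polynomial.aeval (LV.ad (hop T (X.prod Y))) (C a * Polynomial.X ^ (n + 1)) U =
        Polynomial.aeval (LV.ad (hop T (X.prod Y))) (C a * Polynomial.X ^ n)
          (LV.ad (hop T (X.prod Y)) U) := by
      rw [pow_succ, ← mul_assoc, map_mul, aeval_X, Module.End.mul_apply]
    have h2 : Polynomial.aeval (LV.ad (hop T X)) (C a * Polynomial.X ^ (n + 1)) u =
        Polynomial.aeval (LV.ad (hop T X)) (C a * Polynomial.X ^ n) (LV.ad (hop T X) u) := by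
      rw [pow_succ, ← mul_assoc, map_mul, aeval_X, Module.End.mul_apply]
    rw [h1, h2]
    exact ih H.ad

theorem Act2.aeval (p : ℂ[X]) {U : Module.End ℂ (CH T (X.prod Y))} {u : Module.End ℂ (CH T Y)}
    (H : Act2 U u) : Act2 (aeval (LV.ad (hop T (X.prod Y))) p U)
      (aeval (LV.ad (hop T Y)) p u) := by
  induction p using Polynomial.induction_on generalizing U u with
  | C a =>
    intro x y
    rw [aeval_C, aeval_C, Module.algebraMap_end_apply, Module.algebraMap_end_apply,
      LinearMap.smul_apply, LinearMap.smul_apply, H, map_smul, mul_smul_comm]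
  | add p q hp hq =>
    intro x y
    rw [map_add, map_add, LinearMap.add_apply, LinearMap.add_apply, LinearMap.add_apply,
      LinearMap.add_apply, hp H, hq H, map_add, mul_add]
  | monomial n a ih =>
    have h1 : Polynomial.aeval (LV.ad (hop T (X.prod Y))) (C a * Polynomial.X ^ (n + 1)) U =
        Polynomial.aeval (LV.ad (hop T (X.prod Y))) (C a * Polynomial.X ^ n)
          (LV.ad (hop T (X.prod Y)) U) := by
      rw [pow_succ, ← mul_assoc, map_mul, aeval_X, Module.End.mul_apply]
    have h2 : Polynomial.aeval (LV.ad (hop T Y)) (C a * Polynomial.X ^ (n + 1)) u =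
        Polynomial.aeval (LV.ad (hop T Y)) (C a * Polynomial.X ^ n) (LV.ad (hop T Y) u) := by
      rw [pow_succ, ← mul_assoc, map_mul, aeval_X, Module.End.mul_apply]
    rw [h1, h2]
    exact ih H.ad

/-- Multiplication with rational coefficients. -/
theorem mul_ind {p : CH T X → CH T Y → Prop}
    (h : ∀ (z w : ℂ) (a : T.W.H X) (b : T.W.H Y), p (z ⊗ₜ[T.W.K] a) (w ⊗ₜ[T.W.K] b))
    (hl : ∀ a a' b, p a b → p a' b → p (a + a') b) (hr : ∀ a b b', p a b → p a b' → p a (b + b'))
    (a : CH T X) (b : CH T Y) : p a b := by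
  induction a using TensorProduct.induction_on with
  | zero =>
    induction b using TensorProduct.induction_on with
    | zero =>
      have h1 := h 0 0 0 0
      rwa [tmul_zero, tmul_zero] at h1
    | add x y hx hy => exact hr _ _ _ hx hy
    | tmul z v =>
      have h1 := h 0 z 0 v
      rwa [tmul_zero] at h1
  | add x y hx hy => exact hl _ _ _ hx hy
  | tmul z v =>
    induction b using TensorProduct.induction_on with
    | zero =>
      have h1 := h z 0 v 0
      rwa [tmul_zero] at h1
    | add x y hx hy => exact hr _ _ _ hx hy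
    | tmul w u => exact h z w v u

theorem act1_base (x : EH T X) :
    Act1 ((two T.W X Y (x, 0)).baseChange ℂ : Module.End ℂ (CH T (X.prod Y)))
      (x.baseChange ℂ) := by
  intro a b
  refine mul_ind (p := fun a b => ((two T.W X Y (x, 0)).baseChange ℂ :
    Module.End ℂ (CH T (X.prod Y))) (mp T (fst X Y) a * mp T (snd X Y) b) =
      mp T (fst X Y) (x.baseChange ℂ a) * mp T (snd X Y) b) ?_ ?_ ?_ a b
  · intro z w a b
    rw [mp_tmul, mp_tmul, Algebra.TensorProduct.tmul_mul_tmul, LinearMap.baseChange_tmul,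
      two_tmul, LinearMap.baseChange_tmul, mp_tmul, Algebra.TensorProduct.tmul_mul_tmul,
      LinearMap.zero_apply, map_zero, mul_zero, add_zero]
  · intro a a' b h1 h2
    rw [map_add, add_mul, map_add, h1, h2, map_add, map_add, add_mul]
  · intro a b b' h1 h2
    rw [map_add, mul_add, map_add, h1, h2, mul_add]

theorem act2_base (y : EH T Y) :
    Act2 ((two T.W X Y (0, y)).baseChange ℂ : Module.End ℂ (CH T (X.prod Y)))
      (y.baseChange ℂ) := by
  intro a b
  refine mul_ind (p := fun a b => ((two T.W X Y (0, y)).baseChange ℂ :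
    Module.End ℂ (CH T (X.prod Y))) (mp T (fst X Y) a * mp T (snd X Y) b) =
      mp T (fst X Y) a * mp T (snd X Y) (y.baseChange ℂ b)) ?_ ?_ ?_ a b
  · intro z w a b
    rw [mp_tmul, mp_tmul, Algebra.TensorProduct.tmul_mul_tmul, LinearMap.baseChange_tmul,
      two_tmul, LinearMap.baseChange_tmul, mp_tmul, Algebra.TensorProduct.tmul_mul_tmul,
      LinearMap.zero_apply, map_zero, zero_mul, zero_add]
  · intro a a' b h1 h2
    rw [map_add, add_mul, map_add, h1, h2, add_mul]
  · intro a b b' h1 h2
    rw [map_add, mul_add, map_add, h1, h2, map_add, map_add, mul_add]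

theorem two_split (x : EH T X) (y : EH T Y) :
    ((two T.W X Y (x, y)).baseChange ℂ : Module.End ℂ (CH T (X.prod Y))) =
      (two T.W X Y (x, 0)).baseChange ℂ + (two T.W X Y (0, y)).baseChange ℂ := by
  rw [← LinearMap.baseChange_add, ← map_add]
  congr 2
  exact Prod.ext (add_zero _).symm (zero_add _).symm

/-- The rational operators have level at most `l`. -/
def LvX (T : AH.HodgeTheory ops) (X : 𝒱.Obj) (l : ℕ) (x : EH T X) : Prop :=
  LvE (hop T X) l (x.baseChange ℂ)

theorem lv_two {l : ℕ} {x : EH T X} {y : EH T Y} (hx : LvX T X l x) (hy : LvX T Y l y) :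
    LvX T (X.prod Y) l (two T.W X Y (x, y)) := by
  change Polynomial.aeval (ad (hop T (X.prod Y))) (lp l)
    ((two T.W X Y (x, y)).baseChange ℂ : Module.End ℂ (CH T (X.prod Y))) = 0
  rw [two_split, map_add]
  have hx' : Polynomial.aeval (ad (hop T X)) (lp l) (x.baseChange ℂ) = 0 := hx
  have hy' : Polynomial.aeval (ad (hop T Y)) (lp l) (y.baseChange ℂ) = 0 := hy
  apply LinearMap.ext
  intro v
  refine prod_ind (p := fun v => (Polynomial.aeval (ad (hop T (X.prod Y))) (lp l)
    ((two T.W X Y (x, 0)).baseChange ℂ) + Polynomial.aeval (ad (hop T (X.prod Y))) (lp l)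
    ((two T.W X Y (0, y)).baseChange ℂ) : Module.End ℂ (CH T (X.prod Y))) v =
      (0 : Module.End ℂ (CH T (X.prod Y))) v) ?_ ?_ v
  · intro a b
    rw [LinearMap.add_apply, (act1_base x).aeval (lp l) a b, (act2_base y).aeval (lp l) a b,
      hx', hy', LinearMap.zero_apply, LinearMap.zero_apply, map_zero, map_zero, zero_mul,
      mul_zero, add_zero, LinearMap.zero_apply]
  · intro a b ha hb
    rw [map_add, ha, hb, LinearMap.zero_apply, LinearMap.zero_apply, LinearMap.zero_apply,
      add_zero]

/-- The level of a product. -/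
theorem lev_prod {l : ℕ} (hX : ∀ x ∈ gen (hg T X), LvX T X l x)
    (hY : ∀ y ∈ gen (hg T Y), LvX T Y l y) :
    ∀ x ∈ gen (hg T (X.prod Y)), LvX T (X.prod Y) l x := by
  intro f hf
  rw [gen_two] at hf
  obtain ⟨⟨x, y⟩, hxy, rfl⟩ := hf
  exact lv_two (hX x (fst_gen hxy)) (hY y (snd_gen hxy))

end Pool.Agent.Q219.LV
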