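import Pool.Agent.Q219.LV.Geo

/-!
# Ideals of bounded level, varieties whose cohomology is generated in degree one
-/

set_option linter.unusedSectionVars false

open CategoryTheory AlgebraicGeometry TensorProduct

universe u

namespace Pool.Agent.Q219.LV

open Module Polynomial
open Pool.Agent.H914 Pool.Agent.H914.VarClass Pool.Agent.H914.VarClass.Obj
  Pool.Agent.H914.WeilCohomology
open Pool.Agent.Y133.Half
open Pool.Agent.Y121
open Pool.Agent.Q50.BL
open Pool.Agent.Q219.HD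

variable {k : Type u} [Field k] {𝒱 : VarClass k} {ops : CycleOps 𝒱}
  {T : AH.HodgeTheory ops} {X Y Z P Q : 𝒱.Obj} {c : ℂ ≃ₐ[T.W.K] ℂ}

/-! ### Ideals of bounded level -/

/-- There is no ideal of level at most `l`. -/
def NoId (T : AH.HodgeTheory ops) (l : ℕ) (X : 𝒱.Obj) : Prop :=
  ∀ J, IsIdeal J (gen (hg T X)) → (∀ x ∈ J, LvX T X l x) → J = ⊥

theorem hop_one : hop T X (1 : CH T X) = 0 := hop_hodge ((AH.hodgeSys T).one X)

theorem base_one {x : EH T X} (hx : x 1 = 0) : (x.baseChange ℂ) (1 : CH T X) = 0 := by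
  have h1 : (x.baseChange ℂ) (1 ⊗ₜ[T.W.K] (1 : T.W.H X)) = 0 := by
    rw [LinearMap.baseChange_tmul, hx, tmul_zero]
  exact h1

theorem mp_one (f : X ⟶ Y) : mp T f 1 = 1 := by
  have h1 : mp T f (1 ⊗ₜ[T.W.K] (1 : T.W.H Y)) = 1 ⊗ₜ[T.W.K] (1 : T.W.H X) := by
    rw [mp_tmul, map_one]
  exact h1

theorem mp_fst_inj (hY : Nontrivial (T.W.H Y)) {z : CH T X} (hz : mp T (fst X Y) z = 0) :
    z = 0 := by
  refine ev_sep fun l => ?_
  have h1 : ev l (mp T (fst X Y) z) = T.W.map (fst X Y) (ev l z) :=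
    ev_base l (T.W.map (fst X Y)).toLinearMap z
  rw [hz, map_zero] at h1
  refine xp_eq_zero_right (W := T.W) (P := X) (Q := Y) (one_ne_zero : (1 : T.W.H Y) ≠ 0) ?_
  change T.W.map (fst X Y) (ev l z) * T.W.map (snd X Y) 1 = 0
  rw [← h1, zero_mul]

theorem mp_snd_inj (hX : Nontrivial (T.W.H X)) {z : CH T Y} (hz : mp T (snd X Y) z = 0) :
    z = 0 := by
  refine ev_sep fun l => ?_
  have h1 : ev l (mp T (snd X Y) z) = T.W.map (snd X Y) (ev l z) :=
    ev_base l (T.W.map (snd X Y)).toLinearMap z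
  rw [hz, map_zero] at h1
  refine xp_eq_zero_left (W := T.W) (P := X) (Q := Y) (one_ne_zero : (1 : T.W.H X) ≠ 0) ?_
  change T.W.map (fst X Y) 1 * T.W.map (snd X Y) (ev l z) = 0
  rw [← h1, mul_zero]

theorem aeval_one {p : ℂ[X]} {u : Module.End ℂ (CH T X)} (hu : u 1 = 0) :
    aeval (ad (hop T X)) p u (1 : CH T X) = 0 := by
  have h1 := aeval_ad (h := hop T X) (v := (1 : CH T X)) (d := 0)
    (by rw [hop_one, zero_smul]) (∅ : Finset ℕ) (fun _ => 0) p u (fun _ => 0)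
    (fun i hi => absurd hi (Finset.notMem_empty i)) (by rw [hu, Finset.sum_empty])
  rw [h1, Finset.sum_empty]

theorem lv_fst {l : ℕ} (hY : Nontrivial (T.W.H Y)) {x : EH T X} {y : EH T Y} (hy : y 1 = 0)
    (h : LvX T (X.prod Y) l (two T.W X Y (x, y))) : LvX T X l x := by
  have h1 : aeval (ad (hop T (X.prod Y))) (lp l)
    ((two T.W X Y (x, y)).baseChange ℂ : Module.End ℂ (CH T (X.prod Y))) = 0 := h
  rw [two_split, map_add] at h1
  apply LinearMap.ext
  intro a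
  have h2 := LinearMap.congr_fun h1 (mp T (fst X Y) a * mp T (snd X Y) 1)
  rw [LinearMap.add_apply, (act1_base x).aeval (lp l) a 1, (act2_base y).aeval (lp l) a 1,
    aeval_one (base_one hy), map_zero, mul_zero, add_zero, mp_one, mul_one] at h2
  exact mp_fst_inj hY h2

theorem lv_snd {l : ℕ} (hX : Nontrivial (T.W.H X)) {x : EH T X} {y : EH T Y} (hx : x 1 = 0)
    (h : LvX T (X.prod Y) l (two T.W X Y (x, y))) : LvX T Y l y := by
  have h1 : aeval (ad (hop T (X.prod Y))) (lp l)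
    ((two T.W X Y (x, y)).baseChange ℂ : Module.End ℂ (CH T (X.prod Y))) = 0 := h
  rw [two_split, map_add] at h1
  apply LinearMap.ext
  intro b
  have h2 := LinearMap.congr_fun h1 (mp T (fst X Y) 1 * mp T (snd X Y) b)
  rw [LinearMap.add_apply, (act1_base x).aeval (lp l) 1 b, (act2_base y).aeval (lp l) 1 b,
    aeval_one (base_one hx), map_zero, zero_mul, zero_add, mp_one, one_mul] at h2
  exact mp_snd_inj hX h2

theorem two_mem {p : EH T X × EH T Y} (hp : p ∈ gen ((hg T X).prod (hg T Y))) :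
    two T.W X Y p ∈ gen (hg T (X.prod Y)) := by
  rw [gen_two]
  exact ⟨p, hp, rfl⟩

/-- Products have no ideals of bounded level. -/
theorem noId_prod {l : ℕ} (hX : Nontrivial (T.W.H X)) (hY : Nontrivial (T.W.H Y))
    (h1 : NoId T l X) (h2 : NoId T l Y) : NoId T l (X.prod Y) := by
  intro J hJ hlev
  set M := gen ((hg T X).prod (hg T Y)) with hM
  have hML : IsLie M := gen_isLie _
  let N : Submodule T.W.K (EH T X × EH T Y) := M ⊓ J.comap (two T.W X Y)
  have hN : ∀ p ∈ M, ∀ q ∈ N, p * q - q * p ∈ N := by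
    rintro p hp q ⟨hq, hq'⟩
    refine ⟨hML p hp q hq, ?_⟩
    change two T.W X Y (p * q - q * p) ∈ J
    rw [two_isLieMap]
    exact hJ.2 _ (two_mem hp) _ hq'
  have e1 : N.map (LinearMap.fst T.W.K (EH T X) (EH T Y)) = ⊥ := by
    refine h1 _ ⟨?_, ?_⟩ ?_
    · rintro _ ⟨p, hp, rfl⟩
      exact fst_gen hp.1
    · rintro x hx _ ⟨p, hp, rfl⟩
      obtain ⟨q, hq, rfl⟩ := lift_fst (g := hg T X) (g' := hg T Y) hx
      exact ⟨_, hN q hq p hp, rfl⟩
    · rintro _ ⟨p, hp, rfl⟩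
      exact lv_fst hY (gen_one (snd_gen hp.1)) (hlev _ hp.2)
  have e2 : N.map (LinearMap.snd T.W.K (EH T X) (EH T Y)) = ⊥ := by
    refine h2 _ ⟨?_, ?_⟩ ?_
    · rintro _ ⟨p, hp, rfl⟩
      exact snd_gen hp.1
    · rintro x hx _ ⟨p, hp, rfl⟩
      obtain ⟨q, hq, rfl⟩ := lift_snd (g := hg T X) (g' := hg T Y) hx
      exact ⟨_, hN q hq p hp, rfl⟩
    · rintro _ ⟨p, hp, rfl⟩
      exact lv_snd hX (gen_one (fst_gen hp.1)) (hlev _ hp.2)
  rw [Submodule.eq_bot_iff]
  intro f hf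
  have hf' := hJ.1 hf
  rw [gen_two] at hf'
  obtain ⟨p, hp, rfl⟩ := hf'
  have hpN : p ∈ N := ⟨hp, hf⟩
  have k1 : p.1 ∈ N.map (LinearMap.fst T.W.K (EH T X) (EH T Y)) := ⟨p, hpN, rfl⟩
  have k2 : p.2 ∈ N.map (LinearMap.snd T.W.K (EH T X) (EH T Y)) := ⟨p, hpN, rfl⟩
  rw [e1] at k1
  rw [e2] at k2
  have k3 : p = 0 := Prod.ext ((Submodule.mem_bot _).1 k1) ((Submodule.mem_bot _).1 k2)
  rw [k3, map_zero]

/-! ### The types -/

theorem gen_gr {f : EH T X} (hf : f ∈ gen (hg T X)) {i : ℕ} {v : T.W.H X}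
    (hv : v ∈ T.W.gr X i) : f v ∈ T.W.gr X i := by
  let S : Submodule T.W.K (EH T X) :=
    { carrier := {f | ∀ v ∈ T.W.gr X i, f v ∈ T.W.gr X i}
      zero_mem' := fun v _ => Submodule.zero_mem _
      add_mem' := fun h1 h2 v hv => Submodule.add_mem _ (h1 v hv) (h2 v hv)
      smul_mem' := fun r f h v hv => Submodule.smul_mem _ r (h v hv) }
  have h1 : gen (hg T X) ≤ S := by
    refine gen_le ?_ fun l v hv => hg_gr l hv
    intro f hf g hg v hv
    exact Submodule.sub_mem _ (hf _ (hg v hv)) (hg _ (hf v hv))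
  exact h1 hf v hv

theorem base_gr {f : EH T X} (hf : f ∈ gen (hg T X)) {i : ℕ} {x : CH T X}
    (hx : x ∈ (T.W.gr X i).baseChange ℂ) : f.baseChange ℂ x ∈ (T.W.gr X i).baseChange ℂ := by
  refine base_induction (P := fun x => f.baseChange ℂ x ∈ (T.W.gr X i).baseChange ℂ) ?_ ?_ ?_ hx
  · rw [map_zero]
    exact Submodule.zero_mem _
  · intro x y hx hy
    rw [map_add]
    exact Submodule.add_mem _ hx hy
  · intro z a ha
    rw [LinearMap.baseChange_tmul]
    exact Submodule.tmul_mem_baseChange_of_mem _ (gen_gr hf ha)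

theorem exists_types {i : ℕ} {p q : ℤ} (hpq : p + q = i) {y : CH T X}
    (hy : y ∈ (T.W.gr X i).baseChange ℂ) : ∃ w : ℤ →₀ CH T X,
      (∀ r, w r ∈ pqC T X (p + r) (q - r)) ∧ (w.sum fun _ x => x) = y := by
  classical
  refine gr_ind (p := fun y => ∃ w : ℤ →₀ CH T X, (∀ r, w r ∈ pqC T X (p + r) (q - r)) ∧
    (w.sum fun _ x => x) = y) ?_ ?_ ?_ hy
  · intro a b hab x hx
    refine ⟨Finsupp.single (a - p) x, fun r => ?_, Finsupp.sum_single_index rfl⟩
    rw [Finsupp.single_apply]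
    split_ifs with h
    · have e1 : p + r = a := by omega
      have e2 : q - r = b := by omega
      rw [e1, e2]
      exact hx
    · exact Submodule.zero_mem _
  · rintro a b ⟨w, h1, rfl⟩ ⟨w', h1', rfl⟩
    refine ⟨w + w', fun r => ?_, Finsupp.sum_add_index' (fun _ => rfl) fun _ _ _ => rfl⟩
    rw [Finsupp.add_apply]
    exact Submodule.add_mem _ (h1 r) (h1' r)
  · exact ⟨0, fun r => Submodule.zero_mem _, Finsupp.sum_zero_index⟩

theorem types_indep (p q : ℤ) : iSupIndep fun r : ℤ => pqC T X (p + r) (q - r) := by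
  have h1 := (pq_indep (T := T) X).comp (f := fun r : ℤ => (p + r, q - r)) (fun r s h => by
    have := congrArg Prod.fst h
    exact add_left_cancel this)
  exact h1

/-- The Hodge types are in the positive range. -/
def Pos (T : AH.HodgeTheory ops) (X : 𝒱.Obj) : Prop :=
  ∀ (p q : ℤ) (x : CH T X), x ∈ pqC T X p q → x ≠ 0 → 0 ≤ p ∧ 0 ≤ q

/-- The operator moves the types by at most `l`. -/
def Mv (T : AH.HodgeTheory ops) (X : 𝒱.Obj) (l : ℕ) (f : EH T X) : Prop :=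
  ∀ (p q : ℤ) (x : CH T X), x ∈ pqC T X p q → ∃ y : ℤ → CH T X,
    (∀ r, y r ∈ pqC T X (p + r) (q - r)) ∧
      f.baseChange ℂ x = ∑ r ∈ Finset.Icc (-(l : ℤ)) l, y r

theorem hop_shift {p q r : ℤ} {w : CH T X} (hw : w ∈ pqC T X (p + r) (q - r)) :
    hop T X w = ((((p - q : ℤ) : ℂ)) + 2 * (r : ℂ)) • w := by
  rw [hop_pq hw]
  congr 1
  push_cast
  ring

theorem lv_of_mv {l : ℕ} {f : EH T X} (h : Mv T X l f) : LvX T X l f := by
  apply LinearMap.ext
  intro x
  refine ch_ind (p := fun x => (aeval (ad (hop T X)) (lp l) (f.baseChange ℂ)) x =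
    (0 : Module.End ℂ (CH T X)) x) ?_ ?_ ?_ x
  · intro _ a b _ x hx
    obtain ⟨y, h1, h2⟩ := h a b x hx
    rw [aeval_ad (hop_pq hx) _ (fun r : ℤ => ((a - b : ℤ) : ℂ) + 2 * (r : ℂ)) (lp l) _ y
      (fun r _ => hop_shift (h1 r)) h2, LinearMap.zero_apply]
    refine Finset.sum_eq_zero fun r hr => ?_
    rw [add_sub_cancel_left, lp_root hr, zero_smul]
  · intro a b ha hb
    rw [map_add, ha, hb, LinearMap.zero_apply, LinearMap.zero_apply, LinearMap.zero_apply,
      add_zero]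
  · rw [map_zero, map_zero]

theorem mv_of_lv (hp : Pos T X) {l : ℕ} {f : EH T X} (hf : f ∈ gen (hg T X))
    (h : LvX T X l f) : Mv T X l f := by
  classical
  intro p q x hx
  by_cases hx0 : x = 0
  · exact ⟨fun _ => 0, fun r => Submodule.zero_mem _, by rw [hx0, map_zero, Finset.sum_const_zero]⟩
  obtain ⟨h1, h2⟩ := hp p q x hx hx0
  obtain ⟨i, hi⟩ := Int.eq_ofNat_of_zero_le (add_nonneg h1 h2)
  obtain ⟨w, h3, h4⟩ := exists_types (T := T) hi (base_gr hf (pq_gr hi hx))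
  have h5 := aeval_ad (hop_pq hx) w.support (fun r : ℤ => ((p - q : ℤ) : ℂ) + 2 * (r : ℂ)) (lp l)
    (f.baseChange ℂ) w (fun r _ => hop_shift (h3 r)) h4.symm
  have h6 : (aeval (ad (hop T X)) (lp l) (f.baseChange ℂ)) = 0 := h
  rw [h6, LinearMap.zero_apply] at h5
  have h7 : ∀ r ∉ Finset.Icc (-(l : ℤ)) l, w r = 0 := by
    intro r hr
    by_cases hs : r ∈ w.support
    · have h8 := (iSupIndep_iff_finsetSum_eq_zero_imp_eq_zero _).1 (types_indep (T := T) (X := X) p q)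
        w.support (fun r => (lp l).eval (((p - q : ℤ) : ℂ) + 2 * (r : ℂ) - ((p - q : ℤ) : ℂ)) • w r)
        (fun r _ => Submodule.smul_mem _ _ (h3 r)) h5.symm r hs
      rw [add_sub_cancel_left] at h8
      exact (smul_eq_zero.1 h8).resolve_left (lp_ne hr)
    · exact Finsupp.notMem_support_iff.1 hs
  refine ⟨w, h3, ?_⟩
  rw [← h4, Finsupp.sum]
  refine Finset.sum_subset (fun r hr => ?_) fun r _ hr => Finsupp.notMem_support_iff.1 hr
  by_contra hc
  exact (Finsupp.mem_support_iff.1 hr) (h7 r hc)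

end Pool.Agent.Q219.LV
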