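import Pool.Agent.Q219.LV.Geo2

/-!
# Varieties whose cohomology is generated in degree one, independence by levels
-/

set_option linter.unusedSectionVars false

open CategoryTheory AlgebraicGeometry TensorProduct

universe u

namespace Pool.Agent.Q219.LV

open Module Polynomial
open Pool.Agent.H914 Pool.Agent.H914.VarClass Pool.Agent.H914.VarClass.Obj
  Pool.Agent.H914.WeilCohomology
open Pool.Agent.Y133.Half
open Pool.Agent.Y121
open Pool.Agent.Q50.BL
open Pool.Agent.Q219.HD

variable {k : Type u} [Field k] {𝒱 : VarClass k} {ops : CycleOps 𝒱}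
  {T : AH.HodgeTheory ops} {X Y Z P Q : 𝒱.Obj} {c : ℂ ≃ₐ[T.W.K] ℂ}

/-! ### Derivations -/

/-- The operator is a derivation. -/
def IsDer (u : Module.End ℂ (CH T X)) : Prop := ∀ a b : CH T X, u (a * b) = u a * b + a * u b

theorem isDer_hop : IsDer (hop T X) := hop_mul

theorem IsDer.ad {u : Module.End ℂ (CH T X)} (hu : IsDer u) : IsDer (ad (hop T X) u) := by
  intro a b
  rw [ad_apply, LinearMap.sub_apply, LinearMap.sub_apply, LinearMap.sub_apply,
    Module.End.mul_apply, Module.End.mul_apply, Module.End.mul_apply, Module.End.mul_apply,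
    Module.End.mul_apply, Module.End.mul_apply, hu a b, hop_mul a b, map_add, map_add, hop_mul,
    hop_mul, hu, hu, sub_mul, mul_sub]
  abel

theorem IsDer.aeval (p : ℂ[X]) {u : Module.End ℂ (CH T X)} (hu : IsDer u) :
    IsDer (aeval (LV.ad (hop T X)) p u) := by
  induction p using Polynomial.induction_on generalizing u with
  | C a =>
    intro x y
    rw [aeval_C, Module.algebraMap_end_apply, LinearMap.smul_apply, LinearMap.smul_apply,
      LinearMap.smul_apply, hu, smul_add, smul_mul_assoc, mul_smul_comm]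
  | add p q hp hq =>
    intro x y
    rw [map_add, LinearMap.add_apply, LinearMap.add_apply, LinearMap.add_apply,
      LinearMap.add_apply, hp hu, hq hu, add_mul, mul_add]
    abel
  | monomial n a ih =>
    have h2 : Polynomial.aeval (LV.ad (hop T X)) (C a * Polynomial.X ^ (n + 1)) u =
        Polynomial.aeval (LV.ad (hop T X)) (C a * Polynomial.X ^ n) (LV.ad (hop T X) u) := by
      rw [pow_succ, ← mul_assoc, map_mul, aeval_X, Module.End.mul_apply]
    rw [h2]
    exact ih hu.ad

theorem gen_der {f : EH T X} (hf : f ∈ gen (hg T X)) (a b : T.W.H X) :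
    f (a * b) = f a * b + a * f b := by
  let S : Submodule T.W.K (EH T X) :=
    { carrier := {f | ∀ a b, f (a * b) = f a * b + a * f b}
      zero_mem' := fun a b => by
        rw [LinearMap.zero_apply, LinearMap.zero_apply, LinearMap.zero_apply, zero_mul,
          mul_zero, add_zero]
      add_mem' := fun {f g} h1 h2 a b => by
        rw [LinearMap.add_apply, LinearMap.add_apply, LinearMap.add_apply, h1 a b, h2 a b,
          add_mul, mul_add]
        abel
      smul_mem' := fun r f h a b => by
        rw [LinearMap.smul_apply, LinearMap.smul_apply, LinearMap.smul_apply, h a b, smul_add,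
          smul_mul_assoc, mul_smul_comm] }
  have h1 : gen (hg T X) ≤ S := by
    refine gen_le ?_ fun l => hg_mul l
    intro f hf g hg a b
    have hf' : ∀ a b, f (a * b) = f a * b + a * f b := hf
    have hg' : ∀ a b, g (a * b) = g a * b + a * g b := hg
    rw [LinearMap.sub_apply, LinearMap.sub_apply, LinearMap.sub_apply,
      Module.End.mul_apply, Module.End.mul_apply, Module.End.mul_apply, Module.End.mul_apply,
      Module.End.mul_apply, Module.End.mul_apply, hg' a b, hf' a b, map_add, map_add, hf', hf',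
      hg', hg', sub_mul, mul_sub]
    abel
  exact h1 hf a b

theorem isDer_base {f : EH T X} (hf : f ∈ gen (hg T X)) : IsDer (f.baseChange ℂ) := by
  intro a b
  refine mul_ind (p := fun a b => f.baseChange ℂ (a * b) =
    f.baseChange ℂ a * b + a * f.baseChange ℂ b) ?_ ?_ ?_ a b
  · intro z w a b
    rw [Algebra.TensorProduct.tmul_mul_tmul, LinearMap.baseChange_tmul,
      LinearMap.baseChange_tmul, LinearMap.baseChange_tmul, gen_der hf,
      Algebra.TensorProduct.tmul_mul_tmul, Algebra.TensorProduct.tmul_mul_tmul, tmul_add]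
  · intro a a' b h1 h2
    rw [add_mul, map_add, h1, h2, map_add, add_mul, add_mul]
    abel
  · intro a b b' h1 h2
    rw [mul_add, map_add, h1, h2, map_add, mul_add, mul_add]
    abel

/-- **The cohomology is generated in degree one.** -/
theorem lv_of_adjoin (hp : Pos T X)
    (h1 : Algebra.adjoin T.W.K (T.W.gr X 1 : Set (T.W.H X)) = ⊤) :
    ∀ f ∈ gen (hg T X), LvX T X 1 f := by
  classical
  intro f hf
  set D : Module.End ℂ (CH T X) := aeval (ad (hop T X)) (lp 1) (f.baseChange ℂ) with hD
  have hder : IsDer D := (isDer_base hf).aeval (lp 1)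
  have h2 : ∀ x : CH T X, x ∈ (T.W.gr X 1).baseChange ℂ → D x = 0 := by
    intro x hx
    refine gr_ind (p := fun x => D x = 0) ?_ ?_ ?_ hx
    · intro a b hab x hx
      by_cases hx0 : x = 0
      · rw [hx0, map_zero]
      obtain ⟨k1, k2⟩ := hp a b x hx hx0
      obtain ⟨w, h3, h4⟩ := exists_types (T := T) (i := 1) (p := a) (q := b) hab
        (base_gr hf (pq_gr hab hx))
      rw [hD, aeval_ad (hop_pq hx) w.support (fun r : ℤ => ((a - b : ℤ) : ℂ) + 2 * (r : ℂ)) (lp 1)
        (f.baseChange ℂ) w (fun r _ => hop_shift (h3 r)) h4.symm]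
      refine Finset.sum_eq_zero fun r hr => ?_
      obtain ⟨k3, k4⟩ := hp _ _ (w r) (h3 r) (Finsupp.mem_support_iff.1 hr)
      have hab' : a + b = 1 := by exact_mod_cast hab
      rw [add_sub_cancel_left, lp_root, zero_smul]
      rw [Finset.mem_Icc]
      push_cast
      constructor <;> omega
    · intro a b ha hb
      rw [map_add, ha, hb, add_zero]
    · rw [map_zero]
  have h3 : D (1 ⊗ₜ[T.W.K] (1 : T.W.H X)) = 0 := by
    have e := hder 1 1
    rw [mul_one, mul_one, one_mul] at e
    exact add_eq_left.1 e.symm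
  have h4 : ∀ v : T.W.H X, D (1 ⊗ₜ[T.W.K] v) = 0 := by
    intro v
    have hv : v ∈ Algebra.adjoin T.W.K (T.W.gr X 1 : Set (T.W.H X)) := by
      rw [h1]
      exact Algebra.mem_top
    induction hv using Algebra.adjoin_induction with
    | mem v hv => exact h2 _ (Submodule.tmul_mem_baseChange_of_mem _ hv)
    | algebraMap r =>
      rw [Algebra.algebraMap_eq_smul_one, tmul_smul,
        ← algebraMap_smul (A := ℂ) r (1 ⊗ₜ[T.W.K] (1 : T.W.H X) : CH T X), map_smul, h3,
        smul_zero]
    | add a b _ _ ha hb => rw [tmul_add, map_add, ha, hb, add_zero]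
    | mul a b _ _ ha hb =>
      have e : (1 ⊗ₜ[T.W.K] (a * b) : CH T X) = (1 ⊗ₜ[T.W.K] a) * (1 ⊗ₜ[T.W.K] b) := by
        rw [Algebra.TensorProduct.tmul_mul_tmul, one_mul]
      rw [e, hder, ha, hb, zero_mul, mul_zero, add_zero]
  change D = 0
  apply LinearMap.ext
  intro x
  induction x using TensorProduct.induction_on with
  | zero => rw [map_zero, map_zero]
  | add x y hx hy => rw [map_add, hx, hy, map_add]
  | tmul z v =>
    have e : (z ⊗ₜ[T.W.K] v : CH T X) = z • (1 ⊗ₜ[T.W.K] v) := by
      rw [TensorProduct.smul_tmul', smul_eq_mul, mul_one]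
    rw [e, map_smul, h4, smul_zero, LinearMap.zero_apply]

/-! ### Independence -/

/-- **Independence by levels.** -/
theorem free_of_levels (hT : PolH T c) (hc : ∀ z, c z = (starRingEnd ℂ) z)
    (hX : Nontrivial (T.W.H X)) (hY : Nontrivial (T.W.H Y)) {l : ℕ}
    (h1 : ∀ x ∈ gen (hg T X), LvX T X l x) (h2 : NoId T l Y) : Free2 (hg T X) (hg T Y) :=
  free_of_level (h := hop T X) (h' := hop T Y) (red_prod hT hc hX hY) h1 h2

theorem noId_pw {l : ℕ} (hX : Nontrivial (T.W.H X)) (h : NoId T l X) :
    ∀ n, Nontrivial (T.W.H (pw X n)) ∧ NoId T l (pw X n)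
  | 0 => ⟨hX, h⟩
  | n + 1 => by
    obtain ⟨h1, h2⟩ := noId_pw hX h n
    exact ⟨nontrivial_prod, noId_prod h1 hX h2 h⟩

end Pool.Agent.Q219.LV
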