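import Pool.Agent.Q219.LV.One

/-!
# The centre, dominated varieties, varieties whose cohomology is generated by classes of small width
-/

set_option linter.unusedSectionVars false

open CategoryTheory AlgebraicGeometry TensorProduct

universe u

namespace Pool.Agent.Q219.LV

open Module Polynomial
open Pool.Agent.H914 Pool.Agent.H914.VarClass Pool.Agent.H914.VarClass.Obj
  Pool.Agent.H914.WeilCohomology
open Pool.Agent.Y133.Half
open Pool.Agent.Y121
open Pool.Agent.Q50.BL
open Pool.Agent.Q219.HD

variable {k : Type u} [Field k] {𝒱 : VarClass k} {ops : CycleOps 𝒱}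
  {T : AH.HodgeTheory ops} {X Y Z P Q : 𝒱.Obj} {c : ℂ ≃ₐ[T.W.K] ℂ}

/-! ### The centre -/

theorem zero_mem_Icc (l : ℕ) : (0 : ℤ) ∈ Finset.Icc (-(l : ℤ)) l := by
  rw [Finset.mem_Icc]
  constructor <;> omega

theorem lp_zero (l : ℕ) : (lp l).eval 0 = 0 := by
  have h1 := lp_root (zero_mem_Icc l)
  rwa [Int.cast_zero, mul_zero] at h1

theorem aeval_ad_zero {V : Type*} [AddCommGroup V] [Module ℂ V] {h u : Module.End ℂ V}
    (hu : ad h u = 0) (p : ℂ[X]) : aeval (ad h) p u = p.eval 0 • u := by
  induction p using Polynomial.induction_on with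
  | C a => rw [aeval_C, Module.algebraMap_end_apply, eval_C]
  | add p q hp hq => rw [map_add, LinearMap.add_apply, hp, hq, eval_add, add_smul]
  | monomial n a ih =>
    rw [pow_succ, ← mul_assoc, map_mul, aeval_X, Module.End.mul_apply, hu, map_zero,
      eval_mul (p := C a * X ^ n), eval_X, mul_zero, zero_smul]

theorem lv_cen {l : ℕ} {x : EH T X} (hx : x ∈ cen (gen (hg T X))) : LvX T X l x := by
  have h1 : ad (hop T X) (x.baseChange ℂ) = 0 := by
    refine eq_zero_of_cof fun m => ?_
    rw [cof_ad]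
    have h2 := (mem_cen.1 hx).2 _ (gen_mem (hg T X) m)
    have h3 : cofL (hop T X) m = hg T X m := rfl
    rw [h3, h2, sub_self]
  change aeval (ad (hop T X)) (lp l) (x.baseChange ℂ) = 0
  rw [aeval_ad_zero h1, lp_zero, zero_smul]

theorem cen_of_noId {l : ℕ} (h : NoId T l X) : cen (gen (hg T X)) = ⊥ :=
  h _ cen_ideal fun _ hx => lv_cen hx

theorem elem_of_noId (hT : PolH T c) (hc : ∀ z, c z = (starRingEnd ℂ) z) {l : ℕ}
    (h : NoId T l X) : Elem (hg T X) := by
  refine elem_cen hT hc X ?_
  rw [cen_of_noId h, finrank_bot]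
  exact Nat.zero_le _

/-! ### Dominated varieties -/

theorem mp_inj {f : X ⟶ Y} (hf : Function.Injective (T.W.map f)) {z : CH T Y}
    (hz : mp T f z = 0) : z = 0 := by
  refine ev_sep fun l => hf ?_
  have h1 : ev l (mp T f z) = T.W.map f (ev l z) := ev_base l (T.W.map f).toLinearMap z
  rw [← h1, hz, map_zero, map_zero]

/-- The operators are compatible with the pull-back. -/
def ActM (f : X ⟶ Y) (U : Module.End ℂ (CH T X)) (u : Module.End ℂ (CH T Y)) : Prop :=
  ∀ z, U (mp T f z) = mp T f (u z)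

theorem ActM.ad {f : X ⟶ Y} {U : Module.End ℂ (CH T X)} {u : Module.End ℂ (CH T Y)}
    (H : ActM f U u) : ActM f (ad (hop T X) U) (ad (hop T Y) u) := by
  intro z
  rw [ad_apply, ad_apply, LinearMap.sub_apply, LinearMap.sub_apply, Module.End.mul_apply,
    Module.End.mul_apply, Module.End.mul_apply, Module.End.mul_apply, H, hop_mp, hop_mp, H,
    map_sub]

theorem ActM.aeval (p : ℂ[X]) {f : X ⟶ Y} {U : Module.End ℂ (CH T X)}
    {u : Module.End ℂ (CH T Y)} (H : ActM f U u) :
    ActM f (aeval (LV.ad (hop T X)) p U) (aeval (LV.ad (hop T Y)) p u) := by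
  induction p using Polynomial.induction_on generalizing U u with
  | C a =>
    intro x
    rw [aeval_C, aeval_C, Module.algebraMap_end_apply, Module.algebraMap_end_apply,
      LinearMap.smul_apply, LinearMap.smul_apply, H, map_smul]
  | add p q hp hq =>
    intro x
    rw [map_add, map_add, LinearMap.add_apply, LinearMap.add_apply, LinearMap.add_apply,
      LinearMap.add_apply, hp H, hq H, map_add]
  | monomial n a ih =>
    have h1 : Polynomial.aeval (LV.ad (hop T X)) (C a * Polynomial.X ^ (n + 1)) U =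
        Polynomial.aeval (LV.ad (hop T X)) (C a * Polynomial.X ^ n)
          (LV.ad (hop T X) U) := by
      rw [pow_succ, ← mul_assoc, map_mul, aeval_X, Module.End.mul_apply]
    have h2 : Polynomial.aeval (LV.ad (hop T Y)) (C a * Polynomial.X ^ (n + 1)) u =
        Polynomial.aeval (LV.ad (hop T Y)) (C a * Polynomial.X ^ n) (LV.ad (hop T Y) u) := by
      rw [pow_succ, ← mul_assoc, map_mul, aeval_X, Module.End.mul_apply]
    rw [h1, h2]
    exact ih H.ad

/-- Pairs of operators which are compatible with the pull-back. -/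
def compP (f : X ⟶ Y) : Submodule T.W.K (EH T X × EH T Y) where
  carrier := {p | ∀ v, p.1 (T.W.map f v) = T.W.map f (p.2 v)}
  zero_mem' := fun v => by
    rw [Prod.fst_zero, Prod.snd_zero, LinearMap.zero_apply, LinearMap.zero_apply, map_zero]
  add_mem' := fun {p q} hp hq v => by
    rw [Prod.fst_add, Prod.snd_add, LinearMap.add_apply, LinearMap.add_apply, hp v, hq v,
      map_add]
  smul_mem' := fun r p hp v => by
    rw [Prod.smul_fst, Prod.smul_snd, LinearMap.smul_apply, LinearMap.smul_apply, hp v,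
      map_smul]

theorem gen_compP (f : X ⟶ Y) : gen ((hg T X).prod (hg T Y)) ≤ compP f := by
  refine gen_le ?_ fun l v => hg_map l f v
  intro p hp q hq v
  have hp' : ∀ v, p.1 (T.W.map f v) = T.W.map f (p.2 v) := hp
  have hq' : ∀ v, q.1 (T.W.map f v) = T.W.map f (q.2 v) := hq
  rw [Prod.fst_sub, Prod.snd_sub, Prod.fst_mul, Prod.fst_mul, Prod.snd_mul, Prod.snd_mul,
    LinearMap.sub_apply, LinearMap.sub_apply, Module.End.mul_apply, Module.End.mul_apply,
    Module.End.mul_apply, Module.End.mul_apply, hq', hp', hp', hq', map_sub]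

/-- The level of a dominated variety. -/
theorem lv_dom {l : ℕ} (f : X ⟶ Y) (hf : Function.Injective (T.W.map f))
    (hX : ∀ x ∈ gen (hg T X), LvX T X l x) : ∀ y ∈ gen (hg T Y), LvX T Y l y := by
  intro y hy
  obtain ⟨⟨x, y⟩, hxy, rfl⟩ := lift_snd (g := hg T X) (g' := hg T Y) hy
  have h1 : ∀ v, x (T.W.map f v) = T.W.map f (y v) := gen_compP f hxy
  have h2 : ActM f (x.baseChange ℂ : Module.End ℂ (CH T X)) (y.baseChange ℂ) := by
    intro z
    induction z using TensorProduct.induction_on with
    | zero => rw [map_zero, map_zero, map_zero, map_zero]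
    | add a b ha hb => rw [map_add, map_add, ha, hb, map_add, map_add]
    | tmul w v => rw [mp_tmul, LinearMap.baseChange_tmul, LinearMap.baseChange_tmul, h1, mp_tmul]
  have h3 : Polynomial.aeval (ad (hop T X)) (lp l) (x.baseChange ℂ) = 0 := hX x (fst_gen hxy)
  change Polynomial.aeval (ad (hop T Y)) (lp l) (y.baseChange ℂ) = 0
  apply LinearMap.ext
  intro z
  rw [LinearMap.zero_apply]
  refine mp_inj (f := f) hf ?_
  rw [← h2.aeval (lp l) z, h3, LinearMap.zero_apply]

/-! ### Generators of small width -/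

/-- The cohomology in degree `i` has width at most `l`. -/
def Wid (T : AH.HodgeTheory ops) (X : 𝒱.Obj) (l i : ℕ) : Prop :=
  ∀ (p q : ℤ) (x : CH T X), p + q = i → x ∈ pqC T X p q → x ≠ 0 → |p - q| ≤ l

/-- **The cohomology is generated in degrees of width at most `l`.** -/
theorem lv_of_gen {l : ℕ}
    (h1 : Algebra.adjoin T.W.K {v : T.W.H X | ∃ i, Wid T X l i ∧ v ∈ T.W.gr X i} = ⊤) :
    ∀ f ∈ gen (hg T X), LvX T X l f := by
  classical
  intro f hf
  set D : Module.End ℂ (CH T X) := aeval (ad (hop T X)) (lp l) (f.baseChange ℂ) with hD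
  have hder : IsDer D := (isDer_base hf).aeval (lp l)
  have h2 : ∀ i, Wid T X l i → ∀ x : CH T X, x ∈ (T.W.gr X i).baseChange ℂ → D x = 0 := by
    intro i hi x hx
    refine gr_ind (p := fun x => D x = 0) ?_ ?_ ?_ hx
    · intro a b hab x hx
      by_cases hx0 : x = 0
      · rw [hx0, map_zero]
      have k1 := hi a b x hab hx hx0
      obtain ⟨w, h3, h4⟩ := exists_types (T := T) (p := a) (q := b) hab
        (base_gr hf (pq_gr hab hx))
      rw [hD, aeval_ad (hop_pq hx) w.support (fun r : ℤ => ((a - b : ℤ) : ℂ) + 2 * (r : ℂ)) (lp l)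
        (f.baseChange ℂ) w (fun r _ => hop_shift (h3 r)) h4.symm]
      refine Finset.sum_eq_zero fun r hr => ?_
      have k2 := hi (a + r) (b - r) (w r) (by omega) (h3 r) (Finsupp.mem_support_iff.1 hr)
      rw [add_sub_cancel_left, lp_root, zero_smul]
      rw [Finset.mem_Icc]
      rw [abs_le] at k1 k2
      constructor <;> omega
    · intro a b ha hb
      rw [map_add, ha, hb, add_zero]
    · rw [map_zero]
  have h3 : D (1 ⊗ₜ[T.W.K] (1 : T.W.H X)) = 0 := by
    have e := hder 1 1
    rw [mul_one, mul_one, one_mul] at e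
    exact add_eq_left.1 e.symm
  have h4 : ∀ v : T.W.H X, D (1 ⊗ₜ[T.W.K] v) = 0 := by
    intro v
    have hv : v ∈ Algebra.adjoin T.W.K {v : T.W.H X | ∃ i, Wid T X l i ∧ v ∈ T.W.gr X i} := by
      rw [h1]
      exact Algebra.mem_top
    induction hv using Algebra.adjoin_induction with
    | mem v hv =>
      obtain ⟨i, hi, hv⟩ := hv
      exact h2 i hi _ (Submodule.tmul_mem_baseChange_of_mem _ hv)
    | algebraMap r =>
      rw [Algebra.algebraMap_eq_smul_one, tmul_smul,
        ← algebraMap_smul (A := ℂ) r (1 ⊗ₜ[T.W.K] (1 : T.W.H X) : CH T X), map_smul, h3,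
        smul_zero]
    | add a b _ _ ha hb => rw [tmul_add, map_add, ha, hb, add_zero]
    | mul a b _ _ ha hb =>
      have e : (1 ⊗ₜ[T.W.K] (a * b) : CH T X) = (1 ⊗ₜ[T.W.K] a) * (1 ⊗ₜ[T.W.K] b) := by
        rw [Algebra.TensorProduct.tmul_mul_tmul, one_mul]
      rw [e, hder, ha, hb, zero_mul, mul_zero, add_zero]
  change D = 0
  apply LinearMap.ext
  intro x
  induction x using TensorProduct.induction_on with
  | zero => rw [map_zero, map_zero]
  | add x y hx hy => rw [map_add, hx, hy, map_add]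
  | tmul z v =>
    have e : (z ⊗ₜ[T.W.K] v : CH T X) = z • (1 ⊗ₜ[T.W.K] v) := by
      rw [TensorProduct.smul_tmul', smul_eq_mul, mul_one]
    rw [e, map_smul, h4, smul_zero, LinearMap.zero_apply]

end Pool.Agent.Q219.LV
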