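import Pool.Agent.Q219.LV.Geo4

/-!
# Surfaces with a space of holomorphic two-forms of dimension at most one
-/

set_option linter.unusedSectionVars false

open CategoryTheory AlgebraicGeometry TensorProduct

universe u

namespace Pool.Agent.Q219.LV

open Module Polynomial
open Pool.Agent.H914 Pool.Agent.H914.VarClass Pool.Agent.H914.VarClass.Obj
  Pool.Agent.H914.WeilCohomology
open Pool.Agent.Y133.Half
open Pool.Agent.Y121
open Pool.Agent.Q50.BL
open Pool.Agent.Q219.HD

variable {k : Type u} [Field k] {𝒱 : VarClass k} {ops : CycleOps 𝒱}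
  {T : AH.HodgeTheory ops} {X Y Z P Q : 𝒱.Obj} {c : ℂ ≃ₐ[T.W.K] ℂ}

/-- The range of the types. -/
def Rg (T : AH.HodgeTheory ops) (X : 𝒱.Obj) (d : ℤ) : Prop :=
  ∀ (p q : ℤ) (x : CH T X), x ∈ pqC T X p q → x ≠ 0 → 0 ≤ p ∧ p ≤ d ∧ 0 ≤ q ∧ q ≤ d

/-- The trace with complex coefficients. -/
noncomputable def trC (T : AH.HodgeTheory ops) (X : 𝒱.Obj) : CH T X →ₗ[ℂ] ℂ :=
  (TensorProduct.AlgebraTensorModule.rid T.W.K ℂ ℂ).toLinearMap ∘ₗ (T.W.tr X).baseChange ℂ

theorem trC_tmul (z : ℂ) (v : T.W.H X) : trC T X (z ⊗ₜ[T.W.K] v) = T.W.tr X v • z := by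
  rw [trC, LinearMap.comp_apply, LinearMap.baseChange_tmul]
  exact TensorProduct.AlgebraTensorModule.rid_tmul (R := T.W.K) (A := ℂ) (M := ℂ)
    (T.W.tr X v) z

theorem tr_ev (l : Lam T) (x : CH T X) : T.W.tr X (ev l x) = l (trC T X x) := by
  induction x using TensorProduct.induction_on with
  | zero => rw [map_zero, map_zero, map_zero, map_zero]
  | add x y hx hy => rw [map_add, map_add, hx, hy, map_add, map_add]
  | tmul z v => rw [ev_tmul, map_smul, trC_tmul, map_smul, smul_eq_mul, smul_eq_mul, mul_comm]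

theorem trC_nondeg {y : CH T X} (h : ∀ z, trC T X (y * z) = 0) : y = 0 := by
  refine ev_sep fun l => T.W.nondeg _ fun b => ?_
  rw [← ev_mul_right, tr_ev, h, map_zero]

theorem trC_gr {i : ℕ} (hi : i ≠ 2 * X.dim) {x : CH T X}
    (hx : x ∈ (T.W.gr X i).baseChange ℂ) : trC T X x = 0 := by
  refine base_induction (P := fun x => trC T X x = 0) (map_zero _) ?_ ?_ hx
  · intro x y hx hy
    rw [map_add, hx, hy, add_zero]
  · intro z a ha
    rw [trC_tmul, T.W.tr_eq_zero ha hi, zero_smul]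

theorem comm_two {a b : CH T X} (ha : a ∈ (T.W.gr X 2).baseChange ℂ)
    (hb : b ∈ (T.W.gr X 2).baseChange ℂ) : a * b = b * a := by
  refine base_induction (P := fun a => a * b = b * a) (by rw [zero_mul, mul_zero]) ?_ ?_ ha
  · intro x y hx hy
    rw [add_mul, mul_add, hx, hy]
  · intro z u hu
    refine base_induction (P := fun b => z ⊗ₜ[T.W.K] u * b = b * z ⊗ₜ[T.W.K] u)
      (by rw [zero_mul, mul_zero]) ?_ ?_ hb
    · intro x y hx hy
      rw [add_mul, mul_add, hx, hy]
    · intro w v hv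
      rw [Algebra.TensorProduct.tmul_mul_tmul, Algebra.TensorProduct.tmul_mul_tmul, mul_comm z w,
        T.W.comm hu hv]
      congr 1
      have e : ((-1 : T.W.K) ^ (2 * 2)) = 1 := by norm_num
      rw [e, one_smul]

theorem k3_zero (hd : X.dim = 2) (hr : Rg T X 2) {f : EH T X} (hf : f ∈ gen (hg T X)) {e : ℤ}
    (he : e = 1 ∨ e = -1) {x : CH T X} (hx : x ∈ pqC T X (1 + e) (1 - e))
    (h1 : ∀ z ∈ pqC T X (1 + e) (1 - e), ∃ c : ℂ, z = c • x) (w : ℤ →₀ CH T X)
    (hw : ∀ r, w r ∈ pqC T X (1 + e + r) (1 - e - r))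
    (hs : (w.sum fun _ x => x) = f.baseChange ℂ x) : w (-2 * e) = 0 := by
  classical
  have hx2 : x ∈ (T.W.gr X 2).baseChange ℂ := pq_gr (i := 2) (by push_cast; ring) hx
  have hfx : f.baseChange ℂ x ∈ (T.W.gr X 2).baseChange ℂ := base_gr hf hx2
  have hxx : x * x = 0 := by
    by_contra h
    have h2 := hr _ _ _ (pq_mul hx hx) h
    rcases he with rfl | rfl <;> omega
  have h3 : x * f.baseChange ℂ x = 0 := by
    have h4 := isDer_base hf x x
    rw [hxx, map_zero, comm_two hfx hx2, ← two_smul ℂ] at h4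
    exact (smul_eq_zero.1 h4.symm).resolve_left two_ne_zero
  have hother : ∀ r, r ≠ -2 * e → x * w r = 0 := by
    intro r hre
    by_contra h
    have h2 := hr _ _ _ (pq_mul hx (hw r)) h
    rcases he with rfl | rfl <;> omega
  have h5 : x * w (-2 * e) = 0 := by
    rw [← hs, Finsupp.sum, Finset.mul_sum] at h3
    by_cases hm : -2 * e ∈ w.support
    · rwa [Finset.sum_eq_single (-2 * e) (fun r _ hre => hother r hre)
        (fun h => absurd hm h)] at h3
    · rw [Finsupp.notMem_support_iff.1 hm, mul_zero]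
  have hy := hw (-2 * e)
  have hy2 : w (-2 * e) ∈ (T.W.gr X 2).baseChange ℂ := pq_gr (i := 2) (by push_cast; ring) hy
  refine trC_nondeg fun z => ?_
  refine ch_ind (p := fun z => trC T X (w (-2 * e) * z) = 0) ?_ ?_ ?_ z
  · intro i a b hab z hz
    by_cases hyz : w (-2 * e) * z = 0
    · rw [hyz, map_zero]
    have hz0 : z ≠ 0 := by
      rintro rfl
      exact hyz (mul_zero _)
    have b1 := hr _ _ _ (pq_mul hy hz) hyz
    have b2 := hr _ _ _ hz hz0
    by_cases hi : i = 2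
    · subst hi
      have e1 : a = 1 + e := by
        rcases he with rfl | rfl <;> omega
      have e2 : b = 1 - e := by
        rcases he with rfl | rfl <;> omega
      rw [e1, e2] at hz
      obtain ⟨c, rfl⟩ := h1 z hz
      rw [mul_smul_comm, comm_two hy2 hx2, h5, smul_zero, map_zero]
    · have h6 : w (-2 * e) * z ∈ (T.W.gr X (2 + i)).baseChange ℂ := by
        refine pq_gr (i := 2 + i) ?_ (pq_mul hy hz)
        push_cast
        omega
      refine trC_gr ?_ h6
      rw [hd]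
      omega
  · intro a b ha hb
    rw [mul_add, map_add, ha, hb, add_zero]
  · rw [mul_zero, map_zero]

/-- **Surfaces with `h^(2,0) ≤ 1` have level at most one.** -/
theorem lv_surface (hd : X.dim = 2) (hr : Rg T X 2)
    (h1 : ∀ (e : ℤ), e = 1 ∨ e = -1 → ∀ x ∈ pqC T X (1 + e) (1 - e), x ≠ 0 →
      ∀ z ∈ pqC T X (1 + e) (1 - e), ∃ c : ℂ, z = c • x) :
    ∀ f ∈ gen (hg T X), LvX T X 1 f := by
  classical
  intro f hf
  apply LinearMap.ext
  intro x
  refine ch_ind (p := fun x => (aeval (ad (hop T X)) (lp 1) (f.baseChange ℂ)) x =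
    (0 : Module.End ℂ (CH T X)) x) ?_ ?_ ?_ x
  · intro i a b hab x hx
    by_cases hx0 : x = 0
    · rw [hx0, map_zero, map_zero]
    obtain ⟨w, h3, h4⟩ := exists_types (T := T) (p := a) (q := b) hab
      (base_gr hf (pq_gr hab hx))
    rw [aeval_ad (hop_pq hx) w.support (fun r : ℤ => ((a - b : ℤ) : ℂ) + 2 * (r : ℂ)) (lp 1)
      (f.baseChange ℂ) w (fun r _ => hop_shift (h3 r)) h4.symm, LinearMap.zero_apply]
    refine Finset.sum_eq_zero fun r hr' => ?_
    rw [add_sub_cancel_left]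
    by_cases hrI : r ∈ Finset.Icc (-((1 : ℕ) : ℤ)) ((1 : ℕ) : ℤ)
    · rw [lp_root hrI, zero_smul]
    have b1 := hr _ _ _ hx hx0
    have b2 := hr _ _ _ (h3 r) (Finsupp.mem_support_iff.1 hr')
    rw [Finset.mem_Icc, not_and_or] at hrI
    push_cast at hrI
    exfalso
    rcases hrI with hrI | hrI
    · have ea : a = 1 + 1 := by omega
      have eb : b = 1 - 1 := by omega
      have er : r = -2 * 1 := by omega
      subst ea eb er
      exact (Finsupp.mem_support_iff.1 hr') (k3_zero hd hr hf (Or.inl rfl) hx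
        (h1 1 (Or.inl rfl) x hx hx0) w h3 h4)
    · have ea : a = 1 + -1 := by omega
      have eb : b = 1 - -1 := by omega
      have er : r = -2 * -1 := by omega
      subst ea eb er
      exact (Finsupp.mem_support_iff.1 hr') (k3_zero hd hr hf (Or.inr rfl) hx
        (h1 (-1) (Or.inr rfl) x hx hx0) w h3 h4)
  · intro a b ha hb
    rw [map_add, ha, hb, LinearMap.zero_apply, LinearMap.zero_apply, LinearMap.zero_apply,
      add_zero]
  · rw [map_zero, map_zero]

/-- Conjugation: the dimension of `H^(0,2)`. -/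
theorem one_conj (hT : PolH T c) {p q : ℤ}
    (h1 : ∀ x ∈ pqC T X p q, x ≠ 0 → ∀ z ∈ pqC T X p q, ∃ c : ℂ, z = c • x) :
    ∀ x ∈ pqC T X q p, x ≠ 0 → ∀ z ∈ pqC T X q p, ∃ c : ℂ, z = c • x := by
  intro x hx hx0 z hz
  obtain ⟨t, ht⟩ := h1 _ (hT.conj X _ _ x hx) (fun h => hx0 (by
    have h2 := inv_sg c x
    rw [h, map_zero] at h2
    exact h2.symm)) _ (hT.conj X _ _ z hz)
  refine ⟨c⁻¹ t, ?_⟩
  rw [← inv_sg c z, ht, sg_smul, inv_sg]

end Pool.Agent.Q219.LV
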