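import Pool.Agent.Q219.LV.LMain
import Pool.Agent.Q219.LV.Defs

/-!
# Levels and absolutely Hodge classes: the main theorem for one comparison isomorphism
-/

set_option linter.unusedSectionVars false

open CategoryTheory AlgebraicGeometry TensorProduct

universe u

namespace Pool.Agent.Q219.LV

open Module
open Pool.Agent.H914 Pool.Agent.H914.VarClass Pool.Agent.H914.VarClass.Obj
  Pool.Agent.H914.WeilCohomology
open Pool.Agent.Y133.Half
open Pool.Agent.Y121

variable {k : Type u} [Field k] {𝒱 : VarClass k} {ops : CycleOps 𝒱}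
  {T T' : AHS.HodgeTheory ops} {X Y Z P Q : 𝒱.Obj}

section Generic

variable {K A : Type} [Field K] [Ring A] [Algebra K A] [Algebra K ℂ]

theorem inLie_iff {t : Lv.TypesOn K A} {f : Module.End K A} :
    Lv.InLie t f ↔ f ∈ HG.St.lieOf t := by
  unfold HG.St.lieOf
  rw [Submodule.mem_sInf]
  exact ⟨fun h L hL => h L hL.1 hL.2, fun h L h1 h2 => h L ⟨h1, h2⟩⟩

theorem allMove_iff {t : Lv.TypesOn K A} {l : ℕ} : Lv.AllMoveBy t l ↔ St.AllMoveBy t l :=
  ⟨fun h f hf => h f (inLie_iff.2 hf), fun h f hf => h f (inLie_iff.1 hf)⟩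

theorem noIdeal_iff {t : Lv.TypesOn K A} {l : ℕ} :
    Lv.NoIdealMovesBy t l ↔ St.NoIdealOfLevel t l := by
  constructor
  · intro h J hJ hl
    exact h J (fun f hf => ⟨inLie_iff.2 (hJ.1 hf), hl f hf⟩)
      fun f hf g hg => hJ.2 f (inLie_iff.1 hf) g hg
  · intro h J hl hJ
    exact h J ⟨fun f hf => inLie_iff.1 (hl f hf).1, fun f hf g hg => hJ f (inLie_iff.2 hf) g hg⟩
      fun f hf => (hl f hf).2

end Generic

/-- The polarisable Hodge theory. -/
noncomputable abbrev toN (T : AHS.HodgeTheory ops) (hT : ∀ X, Lv.IsPolarisable T X) :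
    HG.St.PolHodgeTheory ops :=
  { toHodgeTheory := T
    range := fun X => (hT X).1
    conj := fun X p q x y => (hT X).2.1 p q x y
    pol := fun X => (hT X).2.2 }

variable (hT : ∀ X, Lv.IsPolarisable T X)

theorem level_iff {l : ℕ} : Lv.LevelAtMost T l X ↔ St.LevelAtMost (toN T hT) l X :=
  and_congr_right fun _ => allMove_iff

theorem lfree_iff {l : ℕ} : Lv.LevelFree T l X ↔ St.LevelFree (toN T hT) l X :=
  and_congr_right fun _ => noIdeal_iff

theorem sep_of (h : Lv.Separated T X Y) : St.Separated (toN T hT) X Y := by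
  obtain ⟨l, h⟩ := h
  exact Or.inr ⟨l, h.imp (fun h => ⟨(level_iff hT).1 h.1, (lfree_iff hT).1 h.2⟩)
    fun h => ⟨(level_iff hT).1 h.1, (lfree_iff hT).1 h.2⟩⟩

theorem gen_iff {l : ℕ} : Lv.GeneratedByWidth T l X ↔ St.GeneratedByWidth (toN T hT) l X :=
  Iff.rfl

theorem surf_iff : Lv.IsSmallSurface T X ↔ St.IsSmallSurface (toN T hT) X := Iff.rfl

theorem dom_iff : Lv.Dominates T X Y ↔ St.Dominates (toN T hT) X Y := Iff.rfl

theorem times_eq : ∀ (X : 𝒱.Obj) (l : List 𝒱.Obj), Lv.times X l = HG.St.times X l :=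
  fun _ _ => rfl

theorem pw_eq' (Z : 𝒱.Obj) (n : ℕ) : pw Z n = HG.St.times Z (List.replicate n Z) := by
  induction n with
  | zero => rfl
  | succ n ih =>
    have h1 : pw Z (n + 1) = (pw Z n).prod Z := rfl
    rw [h1, ih, List.replicate_succ']
    exact (List.foldl_concat ..).symm

theorem power_eq (X : 𝒱.Obj) (n : ℕ) : Lv.power X n = HG.St.power X n :=
  (pw_eq' X (n - 1)).symm

theorem powers_eq (l : List (𝒱.Obj × ℕ)) : Lv.powers l = HG.St.powers l :=
  List.map_congr_left fun p _ => power_eq p.1 p.2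

section One

variable {L : Type} [Field L] [Algebra T.W.K L] [Algebra T'.W.K L] (hL : Nonempty (L →+* ℂ))
  (C : AHS.Comparison T.W T'.W L)

/-- The family of conjugates with one comparison isomorphism. -/
noncomputable abbrev cj : AHS.Conjugates T where
  ι := PUnit
  T' _ := T'
  J := PUnit
  t _ := PUnit.unit
  L _ := L
  emb _ := hL
  cmp _ := C

theorem pres_iff : Lv.Preserved C X ↔ Pool.Agent.Q60.CJ.Preserved (cj hL C) PUnit.unit X :=
  Iff.rfl

end One

/-- **The main theorem.** -/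
theorem final_theorem (T T' : AHS.HodgeTheory ops) (hT : ∀ X, Lv.IsPolarisable T X)
    {L : Type} [Field L] [Algebra T.W.K L] [Algebra T'.W.K L] (hL : Nonempty (L →+* ℂ))
    (C : AHS.Comparison T.W T'.W L) :
    (∀ l : ℕ, (∀ X, Lv.GeneratedByWidth T l X → Lv.LevelAtMost T l X) ∧
      (∀ X, Lv.IsSmallSurface T X → 1 ≤ l → Lv.LevelAtMost T l X) ∧
      (∀ X Y, Lv.LevelAtMost T l X → Lv.LevelAtMost T l Y → Lv.LevelAtMost T l (X.prod Y)) ∧
      (∀ X Y, Lv.LevelAtMost T l X → Lv.Dominates T X Y → Lv.LevelAtMost T l Y) ∧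
      ∀ X Y, Lv.LevelFree T l X → Lv.LevelFree T l Y → Lv.LevelFree T l (X.prod Y)) ∧
    (∀ (P : 𝒱.Obj) (S : List 𝒱.Obj) (Q : 𝒱.Obj) (R : List 𝒱.Obj),
      (∀ Y ∈ Q :: R, Lv.LevelFree T 0 Y ∧ ∀ X ∈ P :: S, Lv.Separated T X Y) →
      (Lv.Preserved C ((Lv.times P S).prod (Lv.times Q R)) ↔
        Lv.Preserved C (Lv.times P S) ∧ Lv.Preserved C (Lv.times Q R))) ∧
    ∀ (P : 𝒱.Obj) (R : List (𝒱.Obj × ℕ)),
      (P :: R.map Prod.fst).Pairwise (Lv.Separated T) →
      (∀ p ∈ R, Lv.LevelFree T 0 p.1 ∧ ∃ N, Lv.IsLarge T p.1 N ∧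
        Lv.Preserved C (Lv.power p.1 N)) →
      Lv.Preserved C P → Lv.Preserved C (Lv.times P (Lv.powers R)) := by
  refine ⟨fun l => ⟨fun X h => (level_iff hT).2 (level_gen h),
    fun X h hl => (level_iff hT).2 (level_mono hl (level_surface h)),
    fun X Y h h' => (level_iff hT).2 (level_prod ((level_iff hT).1 h) ((level_iff hT).1 h')),
    fun X Y h h' => (level_iff hT).2 (level_dom ((level_iff hT).1 h) h'),
    fun X Y h h' => (lfree_iff hT).2 (levelFree_prod ((lfree_iff hT).1 h)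
      ((lfree_iff hT).1 h'))⟩, ?_, ?_⟩
  · intro P S Q R h
    exact ((concl_times (T := toN T hT)
      (fun Y hY => (elementary_of_free ((lfree_iff hT).1 (h Y hY).1)).1)
      fun Y hY X hX => sep_of hT ((h Y hY).2 X hX)).2.2 (cj hL C)).2 PUnit.unit
  · intro P R h1 h2 h3
    have h4 : ∀ p ∈ R, St.IsElementary (toN T hT) p.1 := fun p hp =>
      (elementary_of_free ((lfree_iff hT).1 (h2 p hp).1)).1
    rw [powers_eq, times_eq]
    refine one_power (T := toN T hT) (D := cj hL C) (a := PUnit.unit) ?_ ?_ ?_ h3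
    · intro Q hQ
      obtain ⟨p, hp, rfl⟩ := List.mem_map.1 hQ
      exact h4 p hp
    · exact h1.imp fun h => sep_of hT h
    · intro p hp
      obtain ⟨N, hN, h⟩ := (h2 p hp).2
      exact ⟨N, hN, by rw [power_eq] at h; exact h⟩

end Pool.Agent.Q219.LV
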