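import Pool.Agent.Q219.LV.Geo5
import Pool.Agent.Q219.LV.Defs0
import Pool.Agent.Q60.ZGU.OnePow

/-!
# Levels and absolutely Hodge classes: the main theorem
-/

set_option linter.unusedSectionVars false

open CategoryTheory AlgebraicGeometry TensorProduct

universe u

namespace Pool.Agent.Q219.LV

open Module Polynomial
open Pool.Agent.H914 Pool.Agent.H914.VarClass Pool.Agent.H914.VarClass.Obj
  Pool.Agent.H914.WeilCohomology
open Pool.Agent.Y133.Half
open Pool.Agent.Y121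
open Pool.Agent.Q50.BL
open Pool.Agent.Q219.HD
open Pool.Agent.Q60.FI (Polarisable TotallyRealCentre)
open Pool.Agent.Q60.CJ (Preserved)

variable {k : Type u} [Field k] {𝒱 : VarClass k} {ops : CycleOps 𝒱}
  {T : HG.St.PolHodgeTheory ops} {X Y Z P Q : 𝒱.Obj}

theorem rgN (T : HG.St.PolHodgeTheory ops) (X : 𝒱.Obj) : Rg (nH T) X X.dim :=
  fun p q x hx hx0 => T.range X p q x hx hx0

theorem posN (T : HG.St.PolHodgeTheory ops) (X : 𝒱.Obj) : Pos (nH T) X := fun p q x hx hx0 =>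
  ⟨(T.range X p q x hx hx0).1, (T.range X p q x hx hx0).2.2.1⟩

theorem moves_of_lv {l : ℕ} {f : EH (nH T) X} (hf : f ∈ gen (hg (nH T) X))
    (h : LvX (nH T) X l f) : St.MovesBy (HG.St.types T.toHodgeTheory X) l f :=
  mv_of_lv (posN T X) hf h

theorem lv_of_moves {l : ℕ} {f : EH (nH T) X}
    (h : St.MovesBy (HG.St.types T.toHodgeTheory X) l f) : LvX (nH T) X l f :=
  lv_of_mv (T := nH T) h

theorem levN {l : ℕ} : St.LevelAtMost T l X ↔ Nontrivial ((nH T).W.H X) ∧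
    ∀ f ∈ gen (hg (nH T) X), LvX (nH T) X l f := by
  constructor
  · rintro ⟨h1, h2⟩
    refine ⟨h1, fun f hf => lv_of_moves (h2 f ?_)⟩
    rw [lieOf_eq]
    exact hf
  · rintro ⟨h1, h2⟩
    refine ⟨h1, fun f hf => ?_⟩
    rw [lieOf_eq] at hf
    exact moves_of_lv hf (h2 f hf)

theorem freeN {l : ℕ} : St.LevelFree T l X ↔ Nontrivial ((nH T).W.H X) ∧ NoId (nH T) l X := by
  constructor
  · rintro ⟨h1, h2⟩
    refine ⟨h1, fun J hJ hl => (Submodule.eq_bot_iff J).2 (h2 J ⟨?_, ?_⟩ ?_)⟩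
    · rw [lieOf_eq]
      exact hJ.1
    · rw [lieOf_eq]
      exact hJ.2
    · exact fun f hf => moves_of_lv (hJ.1 hf) (hl f hf)
  · rintro ⟨h1, h2⟩
    refine ⟨h1, fun J hJ hl f hf => ?_⟩
    have h3 : J = ⊥ := by
      refine h2 J ⟨?_, ?_⟩ fun f hf => lv_of_moves (hl f hf)
      · rw [← lieOf_eq]
        exact hJ.1
      · rw [← lieOf_eq]
        exact hJ.2
    rw [h3] at hf
    exact (Submodule.mem_bot _).1 hf

/-! ### Monotonicity -/

theorem moves_mono {l l' : ℕ} (hl : l ≤ l') {f : Module.End T.W.K (T.W.H X)}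
    (h : St.MovesBy (HG.St.types T.toHodgeTheory X) l f) :
    St.MovesBy (HG.St.types T.toHodgeTheory X) l' f := by
  classical
  intro p q x hx
  obtain ⟨y, h1, h2⟩ := h p q x hx
  refine ⟨fun r => if r ∈ Finset.Icc (-(l : ℤ)) l then y r else 0, fun r => ?_, ?_⟩
  · change (if r ∈ Finset.Icc (-(l : ℤ)) l then y r else 0) ∈ pqC (nH T) X (p + r) (q - r)
    split_ifs
    · exact h1 r
    · exact Submodule.zero_mem _
  · rw [h2, Finset.sum_ite, Finset.sum_const_zero, add_zero]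
    refine Finset.sum_congr ?_ fun _ _ => rfl
    ext r
    rw [Finset.mem_filter, Finset.mem_Icc, Finset.mem_Icc]
    constructor
    · intro h
      refine ⟨⟨?_, ?_⟩, h⟩ <;> omega
    · exact fun h => h.2

theorem level_mono {l l' : ℕ} (hl : l ≤ l') (h : St.LevelAtMost T l X) :
    St.LevelAtMost T l' X := ⟨h.1, fun f hf => moves_mono hl (h.2 f hf)⟩

theorem free_anti {l l' : ℕ} (hl : l ≤ l') (h : St.LevelFree T l' X) :
    St.LevelFree T l X := ⟨h.1, fun J hJ hf => h.2 J hJ fun f h' => moves_mono hl (hf f h')⟩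

/-! ### The level -/

theorem level_gen {l : ℕ} (h : St.GeneratedByWidth T l X) : St.LevelAtMost T l X :=
  levN.2 ⟨h.1, lv_of_gen (T := nH T) h.2⟩

theorem level_surface (h : St.IsSmallSurface T X) : St.LevelAtMost T 1 X := by
  obtain ⟨h1, h2, h3⟩ := h
  have h4 := fun x hx hx0 z hz => h3 x z hx hz hx0
  have h5 := one_conj (T := nH T) (X := X) (p := 2) (q := 0) (polN T) h4
  refine levN.2 ⟨h1, lv_surface (T := nH T) h2 ?_ ?_⟩
  · have h6 := rgN T X
    rw [h2] at h6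
    exact h6
  · rintro e (rfl | rfl)
    · exact h4
    · exact h5

theorem level_prod {l : ℕ} (h : St.LevelAtMost T l X) (h' : St.LevelAtMost T l Y) :
    St.LevelAtMost T l (X.prod Y) := by
  obtain ⟨h1, h2⟩ := levN.1 h
  obtain ⟨h3, h4⟩ := levN.1 h'
  exact levN.2 ⟨nontrivial_prod, lev_prod h2 h4⟩

theorem level_dom {l : ℕ} (h : St.LevelAtMost T l X) (hXY : St.Dominates T X Y) :
    St.LevelAtMost T l Y := by
  obtain ⟨h1, h2⟩ := levN.1 h
  obtain ⟨f, hf⟩ := hXY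
  refine levN.2 ⟨?_, lv_dom (T := nH T) f hf h2⟩
  refine nontrivial_of_ne (1 : (nH T).W.H Y) 0 fun h3 => ?_
  have h4 := congrArg ((nH T).W.map f) h3
  rw [map_one, map_zero] at h4
  exact one_ne_zero h4

theorem levelFree_prod {l : ℕ} (h : St.LevelFree T l X) (h' : St.LevelFree T l Y) :
    St.LevelFree T l (X.prod Y) := by
  obtain ⟨h1, h2⟩ := freeN.1 h
  obtain ⟨h3, h4⟩ := freeN.1 h'
  exact freeN.2 ⟨nontrivial_prod, noId_prod h1 h3 h2 h4⟩

/-! ### Independence -/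

theorem concl_of_free (hP : Nontrivial ((nH T).W.H P)) (hQ : Nontrivial ((nH T).W.H Q))
    (h : Free2 (hg (nH T) P) (hg (nH T) Q)) : St.SplitsAbsolutely T P Q := by
  refine ⟨indep_of.2 ⟨hP, hQ, h⟩, decN (split_of_free h), fun D => ⟨?_, fun a => ?_⟩⟩
  · exact (fullS_abs_iff D).symm.trans ((fullS_iff (T := nH T) (hasAlg_abs D) h hP hQ).trans
      (and_congr (fullS_abs_iff D) (fullS_abs_iff D)))
  · exact (fullS_one_iff D a).symm.trans ((fullS_iff (T := nH T) (hasAlg_one D a) h hP hQ).trans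
      (and_congr (fullS_one_iff D a) (fullS_one_iff D a)))

theorem free_sep (h : St.Separated T X Y) :
    Nontrivial ((nH T).W.H X) ∧ Nontrivial ((nH T).W.H Y) ∧
      Free2 (hg (nH T) X) (hg (nH T) Y) := by
  rcases h with h | ⟨l, ⟨h1, h2⟩ | ⟨h1, h2⟩⟩
  · exact indep_of.1 h
  · obtain ⟨k1, k2⟩ := levN.1 h1
    obtain ⟨k3, k4⟩ := freeN.1 h2
    exact ⟨k1, k3, free_of_levels (polN T) nc_conj k1 k3 k2 k4⟩
  · obtain ⟨k1, k2⟩ := levN.1 h1
    obtain ⟨k3, k4⟩ := freeN.1 h2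
    exact ⟨k3, k1, (free_of_levels (polN T) nc_conj k1 k3 k2 k4).symm⟩

theorem elementary_of_free {l : ℕ} (h : St.LevelFree T l X) :
    St.IsElementary T X ∧ St.CentreIsZero T X := by
  obtain ⟨h1, h2⟩ := freeN.1 h
  have h3 : ∀ x, St.InCentre (HG.St.types T.toHodgeTheory X) x → x = 0 := by
    rintro x ⟨hx, hx'⟩
    rw [lieOf_eq] at hx hx'
    have h4 : ∀ x : EH (nH T) X, x ∈ gen (hg (nH T) X) → (∀ y ∈ gen (hg (nH T) X),
        x * y = y * x) → x = 0 := by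
      intro x k1 k2
      have k3 : x ∈ cen (gen (hg (nH T) X)) := ⟨k1, k2⟩
      rw [cen_of_noId h2] at k3
      exact (Submodule.mem_bot _).1 k3
    exact h4 x hx hx'
  exact ⟨⟨h1, fun x y hx _ hx0 => absurd (h3 x hx) hx0⟩, h3⟩

theorem elem_of_elem (h : St.IsElementary T X) :
    Nontrivial ((nH T).W.H X) ∧ Elem (hg (nH T) X) := by
  obtain ⟨h1, h2⟩ := h
  refine ⟨h1, elem_cen (polN T) nc_conj X ?_⟩
  have h3 : ∀ x ∈ cen (gen (hg (nH T) X)),
      St.InCentre (HG.St.types T.toHodgeTheory X) x := by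
    rintro x ⟨hx, hx'⟩
    constructor
    · rw [lieOf_eq]
      exact hx
    · rw [lieOf_eq]
      exact hx'
  by_cases h4 : ∃ x ∈ cen (gen (hg (nH T) X)), x ≠ 0
  · obtain ⟨x, hx, hx0⟩ := h4
    refine finrank_le_one (⟨x, hx⟩ : cen (gen (hg (nH T) X))) fun w => ?_
    obtain ⟨a, ha⟩ := h2 x w.1 (h3 x hx) (h3 w.1 w.2) hx0
    exact ⟨a, Subtype.ext ha.symm⟩
  · push Not at h4
    have h5 : cen (gen (hg (nH T) X)) = ⊥ := (Submodule.eq_bot_iff _).2 h4
    rw [h5, finrank_bot]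
    exact Nat.zero_le _

theorem concl_times {P₀ Q₀ : 𝒱.Obj} {lP lQ : List 𝒱.Obj}
    (hQ : ∀ Q ∈ Q₀ :: lQ, St.IsElementary T Q)
    (hP : ∀ Q ∈ Q₀ :: lQ, ∀ P ∈ P₀ :: lP, St.Separated T P Q) :
    St.SplitsAbsolutely T (HG.St.times P₀ lP) (HG.St.times Q₀ lQ) := by
  have h1 : ∀ P ∈ P₀ :: lP, Nontrivial ((nH T).W.H P) := fun P hP' =>
    (free_sep (hP Q₀ List.mem_cons_self P hP')).1
  have h2 : ∀ Q ∈ Q₀ :: lQ, Nontrivial ((nH T).W.H Q) ∧ Elem (hg (nH T) Q) := fun Q hQ' =>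
    elem_of_elem (hQ Q hQ')
  have h3 : ∀ Q ∈ Q₀ :: lQ, ∀ P ∈ P₀ :: lP, Free2 (hg (nH T) P) (hg (nH T) Q) :=
    fun Q hQ' P hP' => (free_sep (hP Q hQ' P hP')).2.2
  have h4 : Nontrivial ((nH T).W.H (times P₀ lP)) := nontrivial_times _ h1
  have h5 : Nontrivial ((nH T).W.H (times Q₀ lQ)) := nontrivial_times _ fun Q hQ' => (h2 Q hQ').1
  exact concl_of_free (P := times P₀ lP) (Q := times Q₀ lQ) h4 h5
    (free_main (polN T) nc_conj h1 h2 h3)

/-! ### One power -/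

theorem polarisableN (T : HG.St.PolHodgeTheory ops) (X : 𝒱.Obj) :
    Polarisable T.toHodgeTheory X := by
  refine ⟨⟨fun p q x hx hx0 => T.range X p q x hx hx0,
    fun p q x y hx hxy => T.conj X p q x y hxy hx⟩, ?_⟩
  obtain ⟨φ, h1, h2⟩ := T.pol X
  exact ⟨φ, h1, h2⟩

/-- Products of powers. -/
theorem free_times_pw {P : 𝒱.Obj} (hP : Nontrivial ((nH T).W.H P)) {l : List (𝒱.Obj × ℕ)}
    (h1 : ∀ p ∈ l, Nontrivial ((nH T).W.H p.1) ∧ Elem (hg (nH T) p.1) ∧
      Free2 (hg (nH T) P) (hg (nH T) p.1))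
    (h2 : l.Pairwise fun p q => Free2 (hg (nH T) p.1) (hg (nH T) q.1)) {S : Sys (nH T).W}
    (hS : HasAlg (T := nH T) S) (hPS : FullS (T := nH T) S P)
    (hl : ∀ p ∈ l, FullS (T := nH T) S (pw p.1 (p.2 - 1))) :
    Nontrivial ((nH T).W.H (times P (l.map fun p => pw p.1 (p.2 - 1)))) ∧
      FullS (T := nH T) S (times P (l.map fun p => pw p.1 (p.2 - 1))) := by
  induction l using List.reverseRecOn with
  | nil => exact ⟨hP, hPS⟩
  | append_singleton l p ih =>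
    have hmem : ∀ q ∈ l, q ∈ l ++ [p] := fun q hq => List.mem_append_left _ hq
    have hp : p ∈ l ++ [p] := List.mem_append_right _ (List.mem_singleton_self p)
    rw [List.pairwise_append] at h2
    obtain ⟨k1, k2⟩ := ih (fun q hq => h1 q (hmem q hq)) h2.1 fun q hq => hl q (hmem q hq)
    obtain ⟨e1, e2, e3⟩ := h1 p hp
    have h4 : Free2 (hg (nH T) p.1)
        (hg (nH T) (times P (l.map fun p => pw p.1 (p.2 - 1)))) := by
      refine free_times' (polN T) nc_conj e2 fun Y hY => ?_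
      rcases List.mem_cons.1 hY with rfl | hY
      · exact ⟨hP, e3.symm⟩
      · obtain ⟨q, hq, rfl⟩ := List.mem_map.1 hY
        exact free_pw (polN T) nc_conj e2 (h1 q (hmem q hq)).1
          (h2.2.2 q hq p (List.mem_singleton_self p)).symm _
    obtain ⟨h5, h6⟩ := free_pw' (polN T) nc_conj e2 e1 h4.symm (p.2 - 1)
    rw [List.map_append, List.map_singleton, times_concat]
    exact ⟨nontrivial_prod, (fullS_iff (T := nH T) hS h6 k1 h5).2 ⟨k2, hl p hp⟩⟩

theorem one_power {D : AHS.Conjugates T.toHodgeTheory} {a : D.J} {l : List (𝒱.Obj × ℕ)}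
    (hel : ∀ Q ∈ l.map Prod.fst, St.IsElementary T Q)
    (hind : (P :: l.map Prod.fst).Pairwise (St.Separated T))
    (hl : ∀ p ∈ l, ∃ N, St.IsLarge T p.1 N ∧ Preserved D a (HG.St.power p.1 N))
    (hP' : Preserved D a P) : Preserved D a (HG.St.times P (HG.St.powers l)) := by
  by_cases hl0 : l = []
  · subst hl0
    exact hP'
  have h3 : ∀ p ∈ l, Preserved D a (HG.St.power p.1 p.2) := by
    intro p hp
    obtain ⟨N, hN, h⟩ := hl p hp
    exact Pool.Agent.Q60.ZGU.preserved_power D a (polarisableN T p.1) rfl (Or.inl hN) h p.2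
  rw [List.pairwise_cons] at hind
  obtain ⟨h4, h5⟩ := hind
  rw [List.pairwise_map] at h5
  have h6 : ∀ p ∈ l, p.1 ∈ l.map Prod.fst := fun p hp => List.mem_map.2 ⟨p, hp, rfl⟩
  obtain ⟨p₀, hp₀⟩ := List.exists_mem_of_ne_nil l hl0
  refine (fullS_one_iff D a).1 (free_times_pw (T := T) (free_sep (h4 _ (h6 p₀ hp₀))).1
    (fun p hp => ⟨(free_sep (h4 _ (h6 p hp))).2.1, (elem_of_elem (hel _ (h6 p hp))).2,
      (free_sep (h4 _ (h6 p hp))).2.2⟩)
    (h5.imp fun h => (free_sep h).2.2) (hasAlg_one D a) ((fullS_one_iff D a).2 hP')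
    fun p hp => (fullS_one_iff D a).2 (h3 p hp)).2

/-- **The main theorem.** -/
theorem main_theorem (T : HG.St.PolHodgeTheory ops) :
    (∀ l : ℕ, (∀ X, St.GeneratedByWidth T l X → St.LevelAtMost T l X) ∧
      (∀ X, St.IsSmallSurface T X → 1 ≤ l → St.LevelAtMost T l X) ∧
      (∀ X Y, St.LevelAtMost T l X → St.LevelAtMost T l Y → St.LevelAtMost T l (X.prod Y)) ∧
      (∀ X Y, St.LevelAtMost T l X → St.Dominates T X Y → St.LevelAtMost T l Y) ∧
      (∀ X Y, St.LevelFree T l X → St.LevelFree T l Y → St.LevelFree T l (X.prod Y)) ∧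
      ∀ X, St.LevelFree T l X → St.IsElementary T X ∧ St.CentreIsZero T X) ∧
    (∀ (P : 𝒱.Obj) (S : List 𝒱.Obj) (Q : 𝒱.Obj) (R : List 𝒱.Obj),
      (∀ Y ∈ Q :: R, St.IsElementary T Y) →
      (∀ Y ∈ Q :: R, ∀ X ∈ P :: S, St.Separated T X Y) →
      St.SplitsAbsolutely T (HG.St.times P S) (HG.St.times Q R)) ∧
    ∀ (D : AHS.Conjugates T.toHodgeTheory) (a : D.J) (P : 𝒱.Obj) (R : List (𝒱.Obj × ℕ)),
      (∀ Q ∈ R.map Prod.fst, St.IsElementary T Q) →
      (P :: R.map Prod.fst).Pairwise (St.Separated T) →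
      (∀ p ∈ R, ∃ N, St.IsLarge T p.1 N ∧ Preserved D a (HG.St.power p.1 N)) →
      Preserved D a P → Preserved D a (HG.St.times P (HG.St.powers R)) :=
  ⟨fun _ => ⟨fun _ h => level_gen h, fun _ h hl => level_mono hl (level_surface h),
    fun _ _ h h' => level_prod h h', fun _ _ h h' => level_dom h h',
    fun _ _ h h' => levelFree_prod h h', fun _ h => elementary_of_free h⟩,
    fun _ _ _ _ h h' => concl_times h h', fun _ _ _ _ h1 h2 h3 h4 => one_power h1 h2 h3 h4⟩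

end Pool.Agent.Q219.LV
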