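import Pool.Agent.Q219.HG.GM2

/-!
# The level of the ideals of a Lie algebra and the lemma of Goursat
-/

set_option linter.unusedSectionVars false

open TensorProduct

namespace Pool.Agent.Q219.LV

open Module Polynomial
open Pool.Agent.Q50.BL
open Pool.Agent.Q219.HD

section Ad

variable {V : Type*} [AddCommGroup V] [Module ℂ V]

/-- The commutator with `h`. -/
noncomputable def ad (h : Module.End ℂ V) : Module.End ℂ (Module.End ℂ V) :=
  LinearMap.mulLeft ℂ h - LinearMap.mulRight ℂ h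

theorem ad_apply (h u : Module.End ℂ V) : ad h u = h * u - u * h := rfl

/-- The polynomial with the roots `2 r`, where `|r| ≤ l`. -/
noncomputable def lp (l : ℕ) : ℂ[X] := ∏ r ∈ Finset.Icc (-(l : ℤ)) l, (X - C (2 * (r : ℂ)))

theorem lp_root {l : ℕ} {r : ℤ} (hr : r ∈ Finset.Icc (-(l : ℤ)) l) :
    (lp l).eval (2 * (r : ℂ)) = 0 := by
  rw [lp, eval_prod]
  refine Finset.prod_eq_zero hr ?_
  rw [eval_sub, eval_X, eval_C, sub_self]

theorem lp_ne {l : ℕ} {r : ℤ} (hr : r ∉ Finset.Icc (-(l : ℤ)) l) :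
    (lp l).eval (2 * (r : ℂ)) ≠ 0 := by
  rw [lp, eval_prod, Finset.prod_ne_zero_iff]
  intro s hs h
  rw [eval_sub, eval_X, eval_C, sub_eq_zero] at h
  have h1 : (r : ℂ) = s := mul_left_cancel₀ two_ne_zero h
  have h2 : r = s := by exact_mod_cast h1
  exact hr (h2 ▸ hs)

/-- The action on eigenvectors. -/
theorem aeval_ad {h : Module.End ℂ V} {v : V} {d : ℂ} (hv : h v = d • v) {ι : Type*}
    (s : Finset ι) (e : ι → ℂ) (P : ℂ[X]) : ∀ (u : Module.End ℂ V) (w : ι → V),
    (∀ i ∈ s, h (w i) = e i • w i) → u v = ∑ i ∈ s, w i →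
      (aeval (ad h) P u) v = ∑ i ∈ s, P.eval (e i - d) • w i := by
  induction P using Polynomial.induction_on with
  | C a =>
    intro u w hw huv
    rw [aeval_C, Module.algebraMap_end_apply, LinearMap.smul_apply, huv, Finset.smul_sum]
    refine Finset.sum_congr rfl fun i _ => ?_
    rw [eval_C]
  | add p q hp hq =>
    intro u w hw huv
    rw [map_add, LinearMap.add_apply, LinearMap.add_apply, hp u w hw huv, hq u w hw huv,
      ← Finset.sum_add_distrib]
    refine Finset.sum_congr rfl fun i _ => ?_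
    rw [eval_add, add_smul]
  | monomial n a ih =>
    intro u w hw huv
    have h1 : aeval (ad h) (C a * X ^ (n + 1)) u = aeval (ad h) (C a * X ^ n) (ad h u) := by
      rw [pow_succ, ← mul_assoc, map_mul, aeval_X, Module.End.mul_apply]
    rw [h1, ih (ad h u) (fun i => (e i - d) • w i)]
    · refine Finset.sum_congr rfl fun i _ => ?_
      have h2 : (C a * X ^ (n + 1) : ℂ[X]) = C a * X ^ n * X := by rw [pow_succ, mul_assoc]
      rw [h2, eval_mul (p := C a * X ^ n), eval_X, smul_smul]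
    · intro i hi
      rw [map_smul, hw i hi, smul_comm]
    · rw [ad_apply, LinearMap.sub_apply, Module.End.mul_apply, Module.End.mul_apply, hv, huv,
        map_smul, huv, map_sum, Finset.smul_sum, ← Finset.sum_sub_distrib]
      refine Finset.sum_congr rfl fun i hi => ?_
      rw [hw i hi, sub_smul]

/-- The operator has level at most `l`. -/
def LvE (h : Module.End ℂ V) (l : ℕ) (u : Module.End ℂ V) : Prop := aeval (ad h) (lp l) u = 0

end Ad

section Coef

variable {K : Type} [Field K] [CharZero K] [Algebra K ℂ] {V V' : Type*} [AddCommGroup V]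
  [Module K V] [FiniteDimensional K V] [AddCommGroup V'] [Module K V'] [FiniteDimensional K V']

/-- The expansion in terms of the members of a basis. -/
theorem exists_exp {ι : Type*} (b : Basis ι K ℂ) (f : ℂ ⊗[K] V →ₗ[ℂ] ℂ ⊗[K] V') :
    ∃ F : Finset ι, ∀ G, F ⊆ G → f = ∑ i ∈ G, b i • (cofL f (b.coord i)).baseChange ℂ := by
  classical
  let v := Module.finBasis K V
  choose F hF using fun j => exp_one b (f (1 ⊗ₜ[K] v j))
  refine ⟨Finset.univ.biUnion F, fun G hG => ?_⟩
  apply (v.baseChange ℂ).ext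
  intro j
  have h3 : (v.baseChange ℂ) j = (1 ⊗ₜ[K] v j : ℂ ⊗[K] V) := by
    rw [Basis.baseChange_apply]
  rw [h3, LinearMap.sum_apply]
  conv_lhs => rw [hF j G ((Finset.subset_biUnion_of_mem F (Finset.mem_univ j)).trans hG)]
  refine Finset.sum_congr rfl fun i _ => ?_
  rw [LinearMap.smul_apply, LinearMap.baseChange_tmul, TensorProduct.smul_tmul', smul_eq_mul,
    mul_one]
  rfl

/-- Common expansions of two operators. -/
theorem exists_exp_two (f : Module.End ℂ (ℂ ⊗[K] V)) (g : Module.End ℂ (ℂ ⊗[K] V')) :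
    ∃ (ι : Type) (G : Finset ι) (z : ι → ℂ) (l : ι → (ℂ →ₗ[K] K)),
      f = ∑ i ∈ G, z i • (cofL f (l i)).baseChange ℂ ∧
        g = ∑ i ∈ G, z i • (cofL g (l i)).baseChange ℂ := by
  classical
  let b := Basis.ofVectorSpace K ℂ
  obtain ⟨F, hF⟩ := exists_exp b f
  obtain ⟨F', hF'⟩ := exists_exp b g
  exact ⟨_, F ∪ F', b, fun i => b.coord i, hF _ Finset.subset_union_left,
    hF' _ Finset.subset_union_right⟩

/-- The coefficients of a multiple. -/
theorem cof_smul (z : ℂ) (f : Module.End ℂ (ℂ ⊗[K] V)) (l : ℂ →ₗ[K] K) :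
    cofL (z • f) l = cofL f (l ∘ₗ LinearMap.mulLeft K z) := by
  apply LinearMap.ext
  intro v
  rw [cofL_apply, cofL_apply, LinearMap.smul_apply]
  generalize f (1 ⊗ₜ[K] v) = y
  induction y using TensorProduct.induction_on with
  | zero => rw [smul_zero, map_zero, map_zero]
  | add x y hx hy => rw [smul_add, map_add, map_add, hx, hy]
  | tmul a b => rw [TensorProduct.smul_tmul', ev_tmul, ev_tmul]; rfl

theorem cof_add (f g : Module.End ℂ (ℂ ⊗[K] V)) (l : ℂ →ₗ[K] K) :
    cofL (f + g) l = cofL f l + cofL g l := by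
  apply LinearMap.ext
  intro v
  rw [cofL_apply, LinearMap.add_apply, map_add]
  rfl

theorem cof_zero (l : ℂ →ₗ[K] K) : cofL (0 : Module.End ℂ (ℂ ⊗[K] V)) l = 0 := by
  apply LinearMap.ext
  intro v
  rw [cofL_apply, LinearMap.zero_apply, map_zero]
  rfl

theorem cof_sum {ι : Type*} (s : Finset ι) (f : ι → Module.End ℂ (ℂ ⊗[K] V)) (l : ℂ →ₗ[K] K) :
    cofL (∑ i ∈ s, f i) l = ∑ i ∈ s, cofL (f i) l := by
  classical
  induction s using Finset.induction_on with
  | empty => rw [Finset.sum_empty, Finset.sum_empty, cof_zero]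
  | insert a s ha ih => rw [Finset.sum_insert ha, Finset.sum_insert ha, cof_add, ih]

theorem cof_sub (f g : Module.End ℂ (ℂ ⊗[K] V)) (l : ℂ →ₗ[K] K) :
    cofL (f - g) l = cofL f l - cofL g l := by
  apply LinearMap.ext
  intro v
  rw [cofL_apply, LinearMap.sub_apply, map_sub]
  rfl

/-- The coefficients of the commutator with a rational operator. -/
theorem cof_ad (h : Module.End ℂ (ℂ ⊗[K] V)) (x : Module.End K V) (l : ℂ →ₗ[K] K) :
    cofL (ad h (x.baseChange ℂ)) l = cofL h l * x - x * cofL h l := by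
  rw [ad_apply, cof_sub, cof_mul]
  congr 1
  apply LinearMap.ext
  intro v
  rw [cofL_apply, Module.End.mul_apply, ev_base]
  rfl

theorem cof_base (x : Module.End K V) (l : ℂ →ₗ[K] K) : cofL (x.baseChange ℂ) l = l 1 • x := by
  apply LinearMap.ext
  intro v
  rw [cofL_apply, LinearMap.baseChange_tmul, ev_tmul]
  rfl

theorem eq_zero_of_cof {u : Module.End ℂ (ℂ ⊗[K] V)} (h : ∀ l : ℂ →ₗ[K] K, cofL u l = 0) :
    u = 0 := by
  let v := Module.finBasis K V
  apply (v.baseChange ℂ).ext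
  intro j
  rw [Basis.baseChange_apply, LinearMap.zero_apply]
  exact cofL_eq_zero.1 fun l => by rw [h l, LinearMap.zero_apply]

end Coef

section Goursat

variable {K : Type} [Field K] [CharZero K] [Algebra K ℂ] {V V' : Type*} [AddCommGroup V]
  [Module K V] [FiniteDimensional K V] [AddCommGroup V'] [Module K V'] [FiniteDimensional K V']
  {h u : Module.End ℂ (ℂ ⊗[K] V)} {h' u' : Module.End ℂ (ℂ ⊗[K] V')}
  {J : Submodule K (Module.End K V × Module.End K V')}

/-- The coefficients of the pair of operators are in `J`. -/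
def InC (J : Submodule K (Module.End K V × Module.End K V')) (u : Module.End ℂ (ℂ ⊗[K] V))
    (u' : Module.End ℂ (ℂ ⊗[K] V')) : Prop := ∀ l : ℂ →ₗ[K] K, (cofL u l, cofL u' l) ∈ J

theorem InC.smul (H : InC J u u') (z : ℂ) : InC J (z • u) (z • u') := fun l => by
  rw [cof_smul, cof_smul]
  exact H _

theorem InC.add {v : Module.End ℂ (ℂ ⊗[K] V)} {v' : Module.End ℂ (ℂ ⊗[K] V')} (H : InC J u u')
    (H' : InC J v v') : InC J (u + v) (u' + v') := fun l => by
  rw [cof_add, cof_add]
  exact Submodule.add_mem _ (H l) (H' l)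

theorem InC.base {x : Module.End K V} {y : Module.End K V'} (H : (x, y) ∈ J) :
    InC J (x.baseChange ℂ) (y.baseChange ℂ) := fun l => by
  rw [cof_base, cof_base]
  exact Submodule.smul_mem _ (l 1) H

theorem InC.ad (hJ : IsIdeal J (gen ((cofL h).prod (cofL h')))) (H : InC J u u') :
    InC J (ad h u) (ad h' u') := by
  obtain ⟨ι, G, z, l, e1, e2⟩ := exists_exp_two u u'
  intro m
  let p : ι → Module.End K V × Module.End K V' := fun i =>
    ((cofL h).prod (cofL h')) (m ∘ₗ LinearMap.mulLeft K (z i))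
  let q : ι → Module.End K V × Module.End K V' := fun i => (cofL u (l i), cofL u' (l i))
  have h1 : cofL (LV.ad h u) m = ∑ i ∈ G, ((p i).1 * (q i).1 - (q i).1 * (p i).1) := by
    conv_lhs => rw [e1]
    rw [map_sum, cof_sum]
    refine Finset.sum_congr rfl fun i _ => ?_
    rw [map_smul, cof_smul, cof_ad]
    rfl
  have h2 : cofL (LV.ad h' u') m = ∑ i ∈ G, ((p i).2 * (q i).2 - (q i).2 * (p i).2) := by
    conv_lhs => rw [e2]
    rw [map_sum, cof_sum]
    refine Finset.sum_congr rfl fun i _ => ?_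
    rw [map_smul, cof_smul, cof_ad]
    rfl
  have h3 : (cofL (LV.ad h u) m, cofL (LV.ad h' u') m) = ∑ i ∈ G, (p i * q i - q i * p i) := by
    rw [h1, h2]
    refine Prod.ext ?_ ?_
    · rw [Prod.fst_sum]
      rfl
    · rw [Prod.snd_sum]
      rfl
  rw [h3]
  exact Submodule.sum_mem _ fun i _ => hJ.2 _ (gen_mem _ _) _ (H _)

theorem InC.aeval (hJ : IsIdeal J (gen ((cofL h).prod (cofL h')))) (P : ℂ[X]) (H : InC J u u') :
    InC J (aeval (LV.ad h) P u) (aeval (LV.ad h') P u') := by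
  induction P using Polynomial.induction_on generalizing u u' with
  | C a =>
    rw [aeval_C, aeval_C, Module.algebraMap_end_apply, Module.algebraMap_end_apply]
    exact H.smul a
  | add p q hp hq =>
    rw [map_add, map_add, LinearMap.add_apply, LinearMap.add_apply]
    exact (hp H).add (hq H)
  | monomial n a ih =>
    have h1 : Polynomial.aeval (LV.ad h) (C a * X ^ (n + 1)) u =
        Polynomial.aeval (LV.ad h) (C a * X ^ n) (LV.ad h u) := by
      rw [pow_succ, ← mul_assoc, map_mul, aeval_X, Module.End.mul_apply]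
    have h2 : Polynomial.aeval (LV.ad h') (C a * X ^ (n + 1)) u' =
        Polynomial.aeval (LV.ad h') (C a * X ^ n) (LV.ad h' u') := by
      rw [pow_succ, ← mul_assoc, map_mul, aeval_X, Module.End.mul_apply]
    rw [h1, h2]
    exact ih (H.ad hJ)

/-- **Lie algebras of different levels are independent.** -/
theorem free_of_level (hR : Red (gen ((cofL h).prod (cofL h')))) {l : ℕ}
    (h1 : ∀ x ∈ gen (cofL h), LvE h l (x.baseChange ℂ))
    (h2 : ∀ J, IsIdeal J (gen (cofL h')) → (∀ y ∈ J, LvE h' l (y.baseChange ℂ)) → J = ⊥) :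
    Free2 (cofL h) (cofL h') := by
  set M := gen ((cofL h).prod (cofL h')) with hM
  let N1 : Submodule K (Module.End K V × Module.End K V') :=
    M ⊓ LinearMap.ker (LinearMap.fst K (Module.End K V) (Module.End K V'))
  let N2 : Submodule K (Module.End K V × Module.End K V') :=
    M ⊓ LinearMap.ker (LinearMap.snd K (Module.End K V) (Module.End K V'))
  have hML : IsLie M := gen_isLie _
  have hN1 : ∀ x ∈ M, ∀ y ∈ N1, x * y - y * x ∈ N1 := by
    rintro x hx y ⟨hy, hy'⟩
    refine ⟨hML x hx y hy, ?_⟩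
    have h3 : y.1 = 0 := hy'
    change x.1 * y.1 - y.1 * x.1 = 0
    rw [h3, mul_zero, zero_mul, sub_zero]
  have hN2 : ∀ x ∈ M, ∀ y ∈ N2, x * y - y * x ∈ N2 := by
    rintro x hx y ⟨hy, hy'⟩
    refine ⟨hML x hx y hy, ?_⟩
    have h3 : y.2 = 0 := hy'
    change x.2 * y.2 - y.2 * x.2 = 0
    rw [h3, mul_zero, zero_mul, sub_zero]
  have hN : IsIdeal (N1 ⊔ N2) M := by
    refine ⟨sup_le inf_le_left inf_le_left, fun x hx y hy => ?_⟩
    obtain ⟨a, ha, b, hb, rfl⟩ := Submodule.mem_sup.1 hy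
    have e : x * (a + b) - (a + b) * x = (x * a - a * x) + (x * b - b * x) := by
      rw [mul_add, add_mul]
      abel
    rw [e]
    exact Submodule.add_mem_sup (hN1 x hx a ha) (hN2 x hx b hb)
  obtain ⟨J, hJ, h3, h4⟩ := hR _ hN
  have hlev : ∀ p ∈ J, LvE h' l (p.2.baseChange ℂ) := by
    intro p hp
    have h5 : InC J (p.1.baseChange ℂ) (p.2.baseChange ℂ) := InC.base hp
    have h6 := h5.aeval hJ (lp l)
    have h7 : aeval (LV.ad h) (lp l) (p.1.baseChange ℂ) = 0 := h1 p.1 (fst_gen (hJ.1 hp))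
    rw [h7] at h6
    refine eq_zero_of_cof fun m => ?_
    have h8 := h6 m
    rw [cof_zero] at h8
    have h9 : ((0 : Module.End K V), cofL (aeval (LV.ad h') (lp l) (p.2.baseChange ℂ)) m) ∈
        (N1 ⊔ N2) ⊓ J := ⟨Submodule.mem_sup_left ⟨hJ.1 h8, rfl⟩, h8⟩
    rw [h3] at h9
    exact congrArg Prod.snd ((Submodule.mem_bot K).1 h9)
  have hJ2 : J.map (LinearMap.snd K (Module.End K V) (Module.End K V')) = ⊥ := by
    refine h2 _ ⟨?_, ?_⟩ ?_
    · rintro _ ⟨p, hp, rfl⟩
      exact snd_gen (hJ.1 hp)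
    · rintro y hy _ ⟨p, hp, rfl⟩
      obtain ⟨q, hq, rfl⟩ := lift_snd (g := cofL h) (g' := cofL h') hy
      exact ⟨_, hJ.2 q hq p hp, rfl⟩
    · rintro _ ⟨p, hp, rfl⟩
      exact hlev p hp
  have hJ0 : J = ⊥ := by
    rw [Submodule.eq_bot_iff]
    intro p hp
    have h5 : p.2 ∈ J.map (LinearMap.snd K (Module.End K V) (Module.End K V')) := ⟨p, hp, rfl⟩
    rw [hJ2] at h5
    have h6 : p ∈ (N1 ⊔ N2) ⊓ J := ⟨Submodule.mem_sup_right ⟨hJ.1 hp, (Submodule.mem_bot K).1 h5⟩, hp⟩
    rw [h3] at h6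
    exact (Submodule.mem_bot K).1 h6
  rw [hJ0, sup_bot_eq] at h4
  intro y hy
  obtain ⟨q, hq, rfl⟩ := lift_snd (g := cofL h) (g' := cofL h') hy
  have hq' : q ∈ M := hq
  rw [← h4] at hq'
  obtain ⟨a, ha, b, hb, hab⟩ := Submodule.mem_sup.1 hq'
  have ha0 : a.1 = 0 := ha.2
  have hb0 : b.2 = 0 := hb.2
  have h5 : a = (0, q.2) := by
    refine Prod.ext ha0 ?_
    rw [← hab, Prod.snd_add, hb0, add_zero]
  rw [← h5]
  exact ha.1

end Goursat

end Pool.Agent.Q219.LV
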