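import Pool.Agent.Q219.LV.Sys
import Pool.Agent.Q60.CJ.PDefs

/-!
# One comparison isomorphism
-/

set_option linter.unusedSectionVars false

open CategoryTheory AlgebraicGeometry TensorProduct

universe u

namespace Pool.Agent.Q219.LV

open Module
open Pool.Agent.H914 Pool.Agent.H914.VarClass Pool.Agent.H914.VarClass.Obj
  Pool.Agent.H914.WeilCohomology
open Pool.Agent.Y133.Half
open Pool.Agent.Y121

variable {k : Type u} [Field k] {𝒱 : VarClass k} {ops : CycleOps 𝒱}
  {T : AHS.HodgeTheory ops} {X Y Z P Q : 𝒱.Obj}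

/-- One comparison isomorphism. -/
noncomputable def oneC (D : AHS.Conjugates T) (a : D.J) : AHS.Conjugates T where
  ι := PUnit
  T' _ := D.T' (D.t a)
  J := PUnit
  t _ := PUnit.unit
  L _ := D.L a
  field _ := D.field a
  alg _ := D.alg a
  alg' _ := D.alg' a
  emb _ := D.emb a
  cmp _ := D.cmp a

/-- The system of the classes which are preserved by one comparison isomorphism. -/
noncomputable abbrev oneS (D : AHS.Conjugates T) (a : D.J) : Sys (AHS.toH T).W :=
  AH.absSys (AHS.toD (oneC D a))

theorem hasAlg_one (D : AHS.Conjugates T) (a : D.J) : HasAlg (T := AHS.toH T) (oneS D a) :=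
  hasAlg_abs (oneC D a)

theorem fullS_one_iff (D : AHS.Conjugates T) (a : D.J) :
    FullS (T := AHS.toH T) (oneS D a) X ↔ Pool.Agent.Q60.CJ.Preserved D a X := by
  rw [fullS_abs_iff (oneC D a)]
  constructor
  · intro h j c hc
    obtain ⟨_, c', h1, h2⟩ := h j c hc
    exact ⟨c' PUnit.unit, h1 _, h2 PUnit.unit⟩
  · intro h j c hc
    obtain ⟨c', h1, h2⟩ := h j c hc
    exact ⟨hc, fun _ => c', fun _ => h1, fun _ => h2⟩

end Pool.Agent.Q219.LV
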