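import Pool.Agent.Q219.LV.Geo3
import Pool.Agent.Q219.HG.Main

/-!
# Systems of classes and independence
-/

set_option linter.unusedSectionVars false

open CategoryTheory AlgebraicGeometry TensorProduct

universe u

namespace Pool.Agent.Q219.LV

open Module
open Pool.Agent.H914 Pool.Agent.H914.VarClass Pool.Agent.H914.VarClass.Obj
  Pool.Agent.H914.WeilCohomology
open Pool.Agent.Y133.Half
open Pool.Agent.Y121
open Pool.Agent.Q50.BL
open Pool.Agent.Q219.HD

variable {k : Type u} [Field k] {𝒱 : VarClass k} {ops : CycleOps 𝒱}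
  {T : AH.HodgeTheory ops} {S : Sys T.W} {X Y Z P Q : 𝒱.Obj} {c : ℂ ≃ₐ[T.W.K] ℂ}

/-- The system contains the algebraic classes. -/
def HasAlg (S : Sys T.W) : Prop := ∀ X : 𝒱.Obj, (algSys T.W).C X ≤ S.C X

/-- All Hodge classes belong to the system. -/
def FullS (S : Sys T.W) (X : 𝒱.Obj) : Prop := (AH.hodgeSys T).C X ≤ S.C X

theorem FullS.retract (h : FullS S Y) (s : X ⟶ Y) (q : Y ⟶ X) (hsq : s ≫ q = 𝟙 X) :
    FullS S X := by
  intro c hc
  have h1 := h ((AH.hodgeSys T).map q hc)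
  have h2 := S.map s h1
  rwa [← T.W.map_comp, hsq, T.W.map_id] at h2

theorem FullS.of_prod (hS : HasAlg S) (hZ : Nontrivial (T.W.H Z)) (h : FullS S (Z.prod Y)) :
    FullS S Y := by
  obtain ⟨t, ht, ht1⟩ := exists_tr_alg T Z
  intro c hc
  have h1 := h ((AH.hodgeSys T).map (snd Z Y) hc)
  have h2 := S.push (snd Z Y) (S.mul (S.map (fst Z Y) (hS Z ht)) h1)
  rwa [T.W.push_snd, ht1, one_smul] at h2

theorem FullS.swap (h : FullS S (P.prod Q)) : FullS S (Q.prod P) := by
  refine h.retract (Obj.lift (snd Q P) (fst Q P)) (Obj.lift (snd P Q) (fst P Q)) ?_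
  apply prod_hom_ext
  · rw [Category.assoc, Obj.lift_fst, Obj.lift_snd, Category.id_comp]
  · rw [Category.assoc, Obj.lift_snd, Obj.lift_fst, Category.id_comp]

theorem FullS.prod (h : (AH.hodgeSys T).C (P.prod Q) ≤ prods T P Q) (hP : FullS S P)
    (hQ : FullS S Q) : FullS S (P.prod Q) := by
  refine h.trans (Submodule.span_le.2 ?_)
  rintro _ ⟨a, ha, b, hb, rfl⟩
  exact S.mul (S.map _ (hP ha)) (S.map _ (hQ hb))

theorem fullS_iff (hS : HasAlg S) (h : Free2 (hg T P) (hg T Q)) (hP : Nontrivial (T.W.H P))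
    (hQ : Nontrivial (T.W.H Q)) : FullS S (P.prod Q) ↔ FullS S P ∧ FullS S Q :=
  ⟨fun h1 => ⟨h1.swap.of_prod hS hQ, h1.of_prod hS hP⟩,
    fun h1 => FullS.prod (split_of_free h) h1.1 h1.2⟩

theorem FullS.eqv (h : Eqv X Y) (hX : FullS S X) : FullS S Y := by
  obtain ⟨f, g, h1, h2⟩ := h
  exact hX.retract g f h2

theorem fullS_of_subsingleton (h : Subsingleton (T.W.H X)) : FullS S X := by
  intro c _
  rw [Subsingleton.elim c 0]
  exact Submodule.zero_mem _

theorem FullS.op (h : FullS S (X.prod Y)) {f : T.W.H X →ₗ[T.W.K] T.W.H Y}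
    (hf : f ∈ (AH.hodgeSys T).Op X Y) : f ∈ S.Op X Y := by
  obtain ⟨c, hc, rfl⟩ := Sys.mem_Op.1 hf
  exact Sys.Op.corr (h hc)

/-! ### Absolutely Hodge classes -/

variable {T' : AHS.HodgeTheory ops}

theorem hasAlg_abs (D : AHS.Conjugates T') : HasAlg (T := AHS.toH T') (AH.absSys (AHS.toD D)) :=
  fun _ => ClassPred.alg_le (Q := AH.absPred (AHS.toD D))

/-- All Hodge classes are absolutely Hodge. -/
theorem fullS_abs_iff (D : AHS.Conjugates T') : FullS (T := AHS.toH T') (AH.absSys (AHS.toD D)) X ↔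
    ∀ j c, AHS.IsHodge T' X j c → AHS.IsAbsHodge D X j c := by
  constructor
  · intro h j c hc
    have h1 : c ∈ (AH.hodgeSys (AHS.toH T')).C X := ClassPred.sp_of (Q := AH.hodgePred (AHS.toH T')) hc
    have h2 := ClassPred.sp_proj (Q := AH.absPred (AHS.toD D)) (h h1) j
    have h3 : H914.proj ((AHS.toH T').W.isInternal X) (2 * j) c = c := proj_same _ hc.1
    exact (congrArg (fun x => (AH.absPred (AHS.toD D)).P X j x) h3).mp h2
  · intro h c hc
    refine ClassPred.sp_ind (Q := AH.hodgePred (AHS.toH T'))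
      (q := fun c => c ∈ (AH.absSys (AHS.toD D)).C X) ?_ (Submodule.zero_mem _)
      (fun a b => Submodule.add_mem _) hc
    intro j x hx
    exact ClassPred.sp_of (Q := AH.absPred (AHS.toD D)) (h j x hx)

end Pool.Agent.Q219.LV
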